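import Pool.Agent.H55.FFM.Defs

/-!
# Function fields of curves: two lemmas (copies from H13/TD/CLR and H19/TD/CLZ)
-/

set_option autoImplicit false

open MvPolynomial

namespace Pool.Agent.H55.FFM

open scoped IntermediateField.algebraAdjoinAdjoin in
/-- in transcendence degree one every transcendental element has finite degree -/
theorem fin_of_tr {κ C : Type} [Field κ] [Field C] [Algebra κ C]
    (hy : ∃ y : C, FiniteDimensional (IntermediateField.adjoin κ {y}) C)
    (S : Set C) (hS : S.Finite) (hgen : IntermediateField.adjoin κ S = ⊤)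
    (z : C) (hz : Transcendental κ z) : FiniteDimensional (IntermediateField.adjoin κ {z}) C := by
  obtain ⟨y, hy⟩ := hy
  have h1 : Algebra.IsAlgebraic (IntermediateField.adjoin κ {y}) C := inferInstance
  have h2 : Algebra.IsAlgebraic (Algebra.adjoin κ {y}) C :=
    (IsFractionRing.comap_isAlgebraic_iff (A := Algebra.adjoin κ {y})
      (K := IntermediateField.adjoin κ {y}) (C := C)).2 h1
  have h3 : Algebra.trdeg κ C ≤ 1 := by
    have h4 := Algebra.IsAlgebraic.trdeg_le_cardinalMk κ ({y} : Set C)
    simpa using h4
  have h5 : AlgebraicIndependent κ (fun _ : Unit => z) :=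
    (algebraicIndependent_unique_type_iff).2 hz
  have h6 : IsTranscendenceBasis κ (fun _ : Unit => z) :=
    h5.isTranscendenceBasis_of_trdeg_le_of_finite (by simpa using h3)
  have h7 := h6.isAlgebraic_field
  have h8 : Set.range (fun _ : Unit => z) = {z} := by
    ext x; simp [eq_comm]
  rw [h8] at h7
  have h9 : IntermediateField.adjoin (IntermediateField.adjoin κ {z}) S = ⊤ := by
    rw [eq_top_iff]
    intro x _
    have h10 : x ∈ IntermediateField.adjoin κ S := by rw [hgen]; trivial
    have h11 : IntermediateField.adjoin κ S ≤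
        (IntermediateField.adjoin (IntermediateField.adjoin κ {z}) S).restrictScalars κ := by
      rw [IntermediateField.adjoin_le_iff]
      exact IntermediateField.subset_adjoin _ S
    exact h11 h10
  have h12 : FiniteDimensional (IntermediateField.adjoin κ {z})
      (IntermediateField.adjoin (IntermediateField.adjoin κ {z}) S) := by
    have : Finite S := hS
    exact IntermediateField.finiteDimensional_adjoin fun x _ =>
      (Algebra.IsAlgebraic.isAlgebraic x).isIntegral
  rw [h9] at h12
  exact LinearEquiv.finiteDimensional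
    (IntermediateField.topEquiv (F := IntermediateField.adjoin κ {z}) (E := C)).toLinearEquiv

open scoped IntermediateField.algebraAdjoinAdjoin in
/-- a curve is a finite cover of the line -/
theorem noether1 {κ C : Type} [Field κ] [Field C] [Algebra κ C]
    (hy : ∃ y : C, FiniteDimensional (IntermediateField.adjoin κ {y}) C) (R : Subalgebra κ C)
    (hR : R.FG) (hna : ∃ r : R, ¬ IsAlgebraic κ (r : C)) :
    ∃ h : Polynomial κ →ₐ[κ] R, Function.Injective h ∧ h.Finite := by
  have hft : Algebra.FiniteType κ R := R.fg_iff_finiteType.1 hR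
  obtain ⟨s, g, hg, hgf⟩ := exists_finite_inj_algHom_of_fg κ R
  have h3 : Algebra.trdeg κ C ≤ 1 := by
    obtain ⟨y, hy⟩ := hy
    have h1 : Algebra.IsAlgebraic (IntermediateField.adjoin κ {y}) C := inferInstance
    have h2 : Algebra.IsAlgebraic (Algebra.adjoin κ {y}) C :=
      (IsFractionRing.comap_isAlgebraic_iff (A := Algebra.adjoin κ {y})
        (K := IntermediateField.adjoin κ {y}) (C := C)).2 h1
    have h4 := Algebra.IsAlgebraic.trdeg_le_cardinalMk κ ({y} : Set C)
    simpa using h4
  have h4 : AlgebraicIndependent κ (fun i : Fin s => (g (X i) : C)) := by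
    have h5 : (aeval (fun i : Fin s => (g (X i) : C)) : MvPolynomial (Fin s) κ →ₐ[κ] C) =
        R.val.comp g := by
      refine MvPolynomial.algHom_ext fun i => ?_
      rw [aeval_X]
      rfl
    have h6 : Function.Injective
        (aeval (fun i : Fin s => (g (X i) : C)) : MvPolynomial (Fin s) κ →ₐ[κ] C) := by
      rw [h5]
      exact Subtype.val_injective.comp hg
    exact h6
  have h5 : s ≤ 1 := by
    have h6 := h4.cardinalMk_le_trdeg.trans h3
    rw [Cardinal.mk_fin] at h6
    exact_mod_cast h6
  rcases Nat.lt_or_ge s 1 with hs | hs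
  · obtain rfl : s = 0 := by omega
    exfalso
    obtain ⟨r, hr⟩ := hna
    apply hr
    have h6 : (algebraMap κ (MvPolynomial (Fin 0) κ)).IsIntegral := by
      refine RingHom.isIntegral_of_surjective _ fun p => ?_
      exact ⟨coeff 0 p, by
        rw [MvPolynomial.algebraMap_eq]
        exact (eq_C_of_isEmpty p).symm⟩
    have h7 : (g : MvPolynomial (Fin 0) κ →+* R).IsIntegral := hgf.to_isIntegral
    have h8 := RingHom.IsIntegral.trans _ _ h6 h7 r
    have h9 : (g : MvPolynomial (Fin 0) κ →+* R).comp (algebraMap κ (MvPolynomial (Fin 0) κ)) =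
        algebraMap κ R := g.comp_algebraMap
    rw [h9] at h8
    have h10 : IsIntegral κ (r : C) := IsIntegral.map R.val (h8 : IsIntegral κ r)
    exact h10.isAlgebraic
  · obtain rfl : s = 1 := by omega
    refine ⟨g.comp ((MvPolynomial.uniqueAlgEquiv κ (Fin 1)).symm :
      Polynomial κ →ₐ[κ] MvPolynomial (Fin 1) κ), ?_, ?_⟩
    · exact hg.comp (MvPolynomial.uniqueAlgEquiv κ (Fin 1)).symm.injective
    · exact AlgHom.Finite.comp hgf
        (AlgHom.Finite.of_surjective _ (MvPolynomial.uniqueAlgEquiv κ (Fin 1)).symm.surjective)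

/-- a transcendental element of the function field has a positive finite degree -/
theorem fin_cv {k F : Type} [Field k] [Field F] [Algebra k F] {R : Subalgebra k F}
    (hcv : Cv k R) {a : F} (ha : Transcendental k a) :
    FiniteDimensional (IntermediateField.adjoin k {a}) F := by
  obtain ⟨S, hS⟩ := hcv.fg
  refine fin_of_tr hcv.fin (S : Set F) S.finite_toSet ?_ a ha
  rw [eq_top_iff, ← hcv.top, IntermediateField.adjoin_le_iff, ← hS]
  intro x hx
  exact IntermediateField.algebra_adjoin_le_adjoin k _ hx

theorem dg_cv {k F : Type} [Field k] [Field F] [Algebra k F] {R : Subalgebra k F}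
    (hcv : Cv k R) {a : F} (ha : Transcendental k a) : 1 ≤ dg k {a} := by
  have := fin_cv hcv ha
  exact Module.finrank_pos

end Pool.Agent.H55.FFM
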