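import Pool.Agent.H55.FFM.Defs

/-!
# Maps of affine 3-space with finite fibres: the targets in the theory of algebraic curves
-/

open IsDedekindDomain

namespace Pool.Agent.H55.FFM

/-! ## Known facts (proved on the board of H8/TD) -/

/-- the length of `R / (S)` is the degree of the norm of `S` -/
def T_NRF : Prop := ∀ (κ R : Type) [Field κ] [CommRing R] [IsDomain R] [Algebra κ R]
  [Algebra (Polynomial κ) R] [IsScalarTower κ (Polynomial κ) R] [Module.Finite (Polynomial κ) R],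
  Function.Injective (algebraMap (Polynomial κ) R) → ∀ S : R, S ≠ 0 →
  Module.Finite κ (R ⧸ Ideal.span {S}) ∧
    Module.finrank κ (R ⧸ Ideal.span {S}) = (Algebra.norm (Polynomial κ) S).natDegree

/-- the general fibres of a function have as many points as its degree -/
def T_LOW : Prop := ∀ (κ C : Type) [Field κ] [Field C] [Algebra κ C] (R : Subalgebra κ C)
  (z : R), R.FG → IntermediateField.adjoin κ (R : Set C) = ⊤ → Transcendental κ (z : C) →
  FiniteDimensional (IntermediateField.adjoin κ {(z : C)}) C →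
  {c : κ | Module.finrank κ (R ⧸ Ideal.span {z - algebraMap κ R c}) ≠ dg κ {(z : C)}}.Finite

/-- pullback of degrees -/
def T_PBK : Prop := ∀ (k K : Type) [Field k] [Field K] [Algebra k K] (τ : K →ₐ[k] K) (n : ℕ)
  (S : Set K), dg k (τ^[n] '' S) = Module.finrank τ.fieldRange K ^ n * dg k S

/-! ## Places -/

/-- Noether normalization -/
def T_NOE : Prop := ∀ (k F : Type) [Field k] [IsAlgClosed k] [CharZero k] [Field F] [Algebra k F]
  (R : Subalgebra k F), Cv k R → ∃ l ∈ R, Transcendental k l ∧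
    FiniteDimensional (IntermediateField.adjoin k {l}) F ∧
    ∀ r ∈ R, (Polynomial.aeval l : Polynomial k →ₐ[k] F).toRingHom.IsIntegralElem r

/-- the valuations of a Dedekind domain -/
def T_PV1 : Prop := ∀ (B F : Type) [CommRing B] [IsDedekindDomain B] [Field F] [Algebra B F]
  [IsFractionRing B F],
  (∀ (P : HeightOneSpectrum B) (a b : F), a ≠ 0 → b ≠ 0 → vP P (a * b) = vP P a + vP P b) ∧
  (∀ (P : HeightOneSpectrum B) (a b : F), a ≠ 0 → b ≠ 0 → a + b ≠ 0 →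
    min (vP P a) (vP P b) ≤ vP P (a + b)) ∧
  (∀ (P : HeightOneSpectrum B) (b : B), b ≠ 0 → 0 ≤ vP P (algebraMap B F b) ∧
    (0 < vP P (algebraMap B F b) ↔ b ∈ P.asIdeal)) ∧
  (∀ P : HeightOneSpectrum B, ∃ a : F, a ≠ 0 ∧ vP P a = 1) ∧
  (∀ P Q : HeightOneSpectrum B, (∀ a : F, a ≠ 0 → vP P a = vP Q a) → P = Q) ∧
  (∀ (P : HeightOneSpectrum B) (a : F), a ≠ 0 → 0 ≤ vP P a → ∃ b c : B, c ∉ P.asIdeal ∧
    a * algebraMap B F c = algebraMap B F b)

/-- the residue field is `k` -/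
def T_PV2 : Prop := ∀ (k B : Type) [Field k] [IsAlgClosed k] [CommRing B] [IsDedekindDomain B]
  [Algebra k B] [Algebra (Polynomial k) B] [IsScalarTower k (Polynomial k) B]
  [Algebra.IsIntegral (Polynomial k) B] (P : HeightOneSpectrum B),
  algebraMap (Polynomial k) B Polynomial.X ∈ P.asIdeal →
  ∀ b : B, ∃ c : k, b - algebraMap k B c ∈ P.asIdeal

/-- the valuation rings which contain `B` -/
def T_PV3 : Prop := ∀ (B F : Type) [CommRing B] [IsDedekindDomain B] [Field F] [Algebra B F]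
  [IsFractionRing B F] (O : ValuationSubring F), (∀ b : B, algebraMap B F b ∈ O) →
  (∃ a : F, a ∉ O) → ∃ P : HeightOneSpectrum B,
    (∀ b : B, b ≠ 0 → (b ∈ P.asIdeal ↔ (algebraMap B F b)⁻¹ ∉ O)) ∧
    ∀ a : F, a ≠ 0 → (a ∈ O ↔ 0 ≤ vP P a)

/-- the norm and the valuations above `X = 0` -/
def T_PV4 : Prop := ∀ (k B F : Type) [Field k] [IsAlgClosed k] [CharZero k] [CommRing B]
  [IsDedekindDomain B] [Algebra k B] [Algebra (Polynomial k) B]
  [IsScalarTower k (Polynomial k) B] [Module.Finite (Polynomial k) B] [Field F] [Algebra B F]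
  [IsFractionRing B F], Function.Injective (algebraMap (Polynomial k) B) →
  Finite (Sin k B) ∧ ∀ (_ : Fintype (Sin k B)) (b : B), b ≠ 0 →
    (∑ P : Sin k B, vP P.1 (algebraMap B F b)) =
      ((Algebra.norm (Polynomial k) b).rootMultiplicity 0 : ℤ)

/-- comparison of the norms over `k[l]` and over `k[1/l]` -/
def T_LNN : Prop := ∀ (k F R B : Type) [Field k] [Field F] [CommRing R] [IsDomain R] [CommRing B]
  [IsDomain B] [Algebra k F] [Algebra R F] [Algebra B F] [IsFractionRing R F]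
  [IsFractionRing B F] [Algebra (Polynomial k) R] [Algebra (Polynomial k) B]
  [Module.Finite (Polynomial k) R] [Module.Finite (Polynomial k) B] (l : F),
  Transcendental k l →
  (∀ p : Polynomial k, algebraMap R F (algebraMap (Polynomial k) R p) = Polynomial.aeval l p) →
  (∀ p : Polynomial k, algebraMap B F (algebraMap (Polynomial k) B p) =
    Polynomial.aeval l⁻¹ p) → ∀ (r : R) (b c : B), r ≠ 0 → b ≠ 0 → c ≠ 0 →
  algebraMap R F r * algebraMap B F c = algebraMap B F b →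
  (Algebra.norm (Polynomial k) r).natDegree +
    (Algebra.norm (Polynomial k) b).rootMultiplicity 0 =
      (Algebra.norm (Polynomial k) c).rootMultiplicity 0

/-- existence of the places at infinity -/
def T_PLA : Prop := ∀ (k F : Type) [Field k] [IsAlgClosed k] [CharZero k] [Field F] [Algebra k F]
  (R : Subalgebra k F), Cv k R → ∃ (S : Type) (_ : Fintype S) (v : S → F → ℤ), PD k R v

/-- the levels of a valuation -/
def T_LEV : Prop := ∀ (k F S : Type) [Field k] [Field F] [Algebra k F] (v : S → F → ℤ), Vs k v →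
  ∃ L : S → ℤ → Submodule k F, (∀ s m a, a ∈ L s m ↔ a = 0 ∨ m ≤ v s a) ∧
    ∀ (U : Submodule k F) (s : S) (m : ℤ), FiniteDimensional k U →
      Module.finrank k (U ⊓ L s m : Submodule k F) ≤
        Module.finrank k (U ⊓ L s (m + 1) : Submodule k F) + 1

/-- a basis adapted to a valuation -/
def T_FLG : Prop := ∀ (k F S : Type) [Field k] [Field F] [Algebra k F] (v : S → F → ℤ), Vs k v →
  ∀ (s : S) (M : ℕ) (b : Fin M → F), LinearIndependent k b → (∀ j, 0 ≤ v s (b j)) →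
  ∃ P : Matrix (Fin M) (Fin M) k, P.det ≠ 0 ∧ ∀ j : Fin M, (∑ i, P i j • b i) ≠ 0 ∧
    ((j : ℕ) : ℤ) ≤ v s (∑ i, P i j • b i)

/-- there are places at infinity, and a function without poles is constant -/
def T_CSZ : Prop := ∀ (k F : Type) [Field k] [IsAlgClosed k] [CharZero k] [Field F] [Algebra k F]
  (R : Subalgebra k F) (S : Type) [Fintype S] (v : S → F → ℤ), Cv k R → PD k R v →
  Nonempty S ∧ ∀ r ∈ R, r ≠ 0 → (∀ s, 0 ≤ v s r) → ∃ c : k, r = algebraMap k F c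

/-- the degree of a function is the number of its poles -/
def T_DGP : Prop := ∀ (k F : Type) [Field k] [IsAlgClosed k] [CharZero k] [Field F] [Algebra k F]
  (R : Subalgebra k F) (S : Type) [Fintype S] (v : S → F → ℤ), Cv k R → PD k R v →
  ∀ r ∈ R, r ≠ 0 → (dg k {r} : ℤ) = ∑ s, max 0 (-v s r)

/-- functions with one pole of given order -/
def T_RIE : Prop := ∀ (k F : Type) [Field k] [IsAlgClosed k] [CharZero k] [Field F] [Algebra k F]
  (R : Subalgebra k F) (S : Type) [Fintype S] (v : S → F → ℤ), Cv k R → PD k R v →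
  ∀ s₀ : S, ∃ c : ℕ, ∀ j : ℕ, c ≤ j → ∃ β ∈ R, β ≠ 0 ∧ v s₀ β = -(j : ℤ) ∧
    ∀ s, s ≠ s₀ → 0 ≤ v s β

/-- extension of a place -/
def T_EXT : Prop := ∀ (k F : Type) [Field k] [IsAlgClosed k] [CharZero k] [Field F] [Algebra k F]
  (R : Subalgebra k F) (S : Type) [Fintype S] (v : S → F → ℤ) (τ : F →ₐ[k] F), Cv k R →
  PD k R v → (∀ r ∈ R, τ r ∈ R) → ∀ s' : S, ∃ (s : S) (e : ℤ), 1 ≤ e ∧
    ∀ a, a ≠ 0 → v s (τ a) = e * v s' a

/-- the places at infinity are permuted and totally ramified -/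
def T_PRM : Prop := ∀ (k F : Type) [Field k] [IsAlgClosed k] [CharZero k] [Field F] [Algebra k F]
  (R : Subalgebra k F) (S : Type) [Fintype S] (v : S → F → ℤ) (τ : F →ₐ[k] F) (E : ℕ), Cv k R →
  PD k R v → (∀ r ∈ R, τ r ∈ R) → deh (τ : F →+* F) = E → 1 ≤ E →
  ∃ σ : Equiv.Perm S, ∀ s a, a ≠ 0 → v s (τ a) = E * v (σ s) a

/-- `R` is integral over `τ R` -/
def T_ITG : Prop := ∀ (k F : Type) [Field k] [IsAlgClosed k] [CharZero k] [Field F] [Algebra k F]
  (R : Subalgebra k F) (τ : F →ₐ[k] F), Cv k R → (∀ r ∈ R, τ r ∈ R) →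
  1 ≤ deh (τ : F →+* F) → ∀ r ∈ R, IsIntegral (R.map τ) r

/-! ## Traces -/

/-- the degree of a homomorphism -/
def T_DEH : Prop := ∀ (F : Type) [Field F] (τ : F →+* F), deh τ = Module.finrank τ.fieldRange F

/-- trace and norm as trace and determinant of a matrix -/
def T_TMX : Prop := ∀ (F : Type) [Field F] (τ : F →+* F) (E : ℕ) (b : Fin E → F), Bas τ b →
  deh τ = E ∧ ∀ (a : F) (c : Matrix (Fin E) (Fin E) F), (∀ j, a * b j = ∑ i, τ (c i j) * b i) →
    trh τ a = ∑ j, c j j ∧ nmh τ a = c.det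

/-- bases -/
def T_BAS : Prop := ∀ (F : Type) [Field F] (τ : F →+* F) (E : ℕ), deh τ = E → 1 ≤ E →
  (∃ b : Fin E → F, Bas τ b) ∧ ∀ b : Fin E → F, (∀ c : Fin E → F, ∑ i, τ (c i) * b i = 0 →
    ∀ i, c i = 0) → Bas τ b

/-- linearity of the trace, multiplicativity of the norm -/
def T_TLN : Prop := ∀ (F : Type) [Field F] (τ : F →+* F), 1 ≤ deh τ →
  (∀ a b : F, trh τ (a + b) = trh τ a + trh τ b) ∧
  (∀ c a : F, trh τ (τ c * a) = c * trh τ a) ∧
  (∀ a b : F, nmh τ (a * b) = nmh τ a * nmh τ b) ∧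
  (∀ c : F, nmh τ (τ c) = c ^ deh τ) ∧ (∀ a : F, nmh τ a = 0 ↔ a = 0)

/-- composition -/
def T_CMP : Prop := ∀ (F : Type) [Field F] (τ σ : F →+* F), 1 ≤ deh τ → 1 ≤ deh σ →
  deh (τ.comp σ) = deh τ * deh σ ∧ ∀ a, trh (τ.comp σ) a = trh σ (trh τ a)

/-- the Gram determinant -/
def T_GRM : Prop := ∀ (F : Type) [Field F] [CharZero F] (τ : F →+* F) (E : ℕ) (b : Fin E → F),
  Bas τ b → 1 ≤ E → (Matrix.of fun i j => trh τ (b i * b j)).det ≠ 0 ∧ ∀ x : F, x ≠ 0 →
    (Matrix.of fun i j => trh τ (b i * b j)).det =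
      nmh τ x * (Matrix.of fun i j => trh τ (b i * b j / x)).det

/-- elements with different valuations modulo `E` form a basis -/
def T_IND : Prop := ∀ (k F S : Type) [Field k] [Field F] [Algebra k F] (v : S → F → ℤ), Vs k v →
  ∀ (τ : F →+* F) (E : ℕ) (s s' : S), deh τ = E → 1 ≤ E →
  (∀ a, a ≠ 0 → v s (τ a) = E * v s' a) → ∀ b : Fin E → F, (∀ i, b i ≠ 0) →
  (∀ i j, (E : ℤ) ∣ v s (b i) - v s (b j) → i = j) → Bas τ b

/-- valuations of traces and norms -/
def T_TRC : Prop := ∀ (k F S : Type) [Field k] [Field F] [Algebra k F] (v : S → F → ℤ), Vs k v →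
  ∀ (τ : F →+* F) (E : ℕ) (s s' : S), deh τ = E → 1 ≤ E →
  (∀ a, a ≠ 0 → v s (τ a) = E * v s' a) → ∀ a, a ≠ 0 →
    (trh τ a ≠ 0 → v s a ≤ E * v s' (trh τ a)) ∧ v s' (nmh τ a) = v s a

/-- the valuation of a Gram determinant -/
def T_DVL : Prop := ∀ (k F S : Type) [Field k] [Field F] [Algebra k F] (v : S → F → ℤ), Vs k v →
  ∀ (τ : F →+* F) (E : ℕ) (s s' : S), deh τ = E → 1 ≤ E →
  (∀ a, a ≠ 0 → v s (τ a) = E * v s' a) → ∀ (M : ℕ) (b : Fin M → F), (∀ i, b i ≠ 0) →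
  (Matrix.of fun i j => trh τ (b i * b j)).det ≠ 0 →
  2 * ∑ j, v s (b j) ≤ E * v s' (Matrix.of fun i j => trh τ (b i * b j)).det

/-- the traces for the iterates -/
def T_JNT : Prop := ∀ (F : Type) [Field F] (τ : F →+* F) (R : Subring F) (J : F), J ∈ R →
  J ≠ 0 → (∀ r ∈ R, τ r ∈ R) → 1 ≤ deh τ → (∀ q ∈ R, trh τ (q / J) ∈ R) → ∀ n : ℕ,
  deh (τ ^ n) = deh τ ^ n ∧
    ∀ q ∈ R, trh (τ ^ n) (q / ∏ i ∈ Finset.range n, (τ ^ i) J) ∈ R

/-! ## The inequality -/

/-- the number of zeros of `J` -/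
def T_INQ : Prop := ∀ (k F : Type) [Field k] [IsAlgClosed k] [CharZero k] [Field F] [Algebra k F]
  (R : Subalgebra k F) (S : Type) [Fintype S] (v : S → F → ℤ) (τ : F →ₐ[k] F) (E : ℕ) (J : F),
  Cv k R → PD k R v → (∀ r ∈ R, τ r ∈ R) → deh (τ : F →+* F) = E → 2 ≤ E → J ∈ R → J ≠ 0 →
  (∀ q ∈ R, trh (τ : F →+* F) (q / J) ∈ R) →
  -∑ s, v s J ≤ (2 - (Fintype.card S : ℤ)) * ((E : ℤ) - 1)

/-- `J` has small degree or is a unit -/
def T_ONE : Prop := ∀ (k F : Type) [Field k] [IsAlgClosed k] [CharZero k] [Field F] [Algebra k F]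
  (R : Subalgebra k F) (τ : F →ₐ[k] F) (E : ℕ) (J : F),
  Cv k R → (∀ r ∈ R, τ r ∈ R) → deh (τ : F →+* F) = E → 2 ≤ E → J ∈ R → J ≠ 0 →
  (∀ q ∈ R, trh (τ : F →+* F) (q / J) ∈ R) →
  dg k {J} ≤ E - 1 ∨ (J⁻¹ ∈ R ∧ ∃ γ : k, τ (τ J) = algebraMap k F γ * J ^ (E ^ 2))

end Pool.Agent.H55.FFM
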