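import Pool.Agent.H55.FFM.CaseA
import Pool.Agent.H8.HIT.B

/-!
# Polynomial maps of affine 3-space: the orbit closures of the general points are curves
-/

open MvPolynomial
open Pool.Agent.H12.ZD (pmap v O Res DenseOrbit NoInv)
open Pool.Agent.H18.HIT
open Pool.Agent.H8.TD (lc Wsp K3 xx ph)
open Pool.Agent.H8.HIT (setup dense_of_conj noInv_conj lam cov_pos_inj cO_intCast)

namespace Pool.Agent.H55.FFM

/-- the orbit closures of general points are curves, the restriction of `G` has degree `E` -/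
def SupP (G : Tup 3 Qb) (E : ℕ) : Prop :=
  ∀ c : Po 3 Qb, c ≠ 0 → ∃ z : Fin 3 → Qb, eval z c ≠ 0 ∧
    ∃ (F : Type) (_ : Field F) (_ : Algebra Qb F) (π : Po 3 Qb →ₐ[Qb] F) (τ' : F →ₐ[Qb] F),
      VM G (van G z) π τ' ∧ Cv Qb π.range ∧ deh (τ' : F →+* F) = E

/-- the data of a conjugate of an iterate -/
structure CD (f : Tup 3 Qb) (e : ℕ) (p : Nat.Primes) (K₀ : ℕ) (a : Fin 3 → O p)
    (H : Tup 3 (O p)) (τ₀ τ : K3 Qb →ₐ[Qb] K3 Qb) (θ : Po 3 Qb) (Φ : Polynomial (Po 3 Qb))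
    (Δ : Po 3 Qb) (R : Fin 3 → Polynomial (Po 3 Qb)) : Prop where
  thr : 3 ≤ (p : ℕ)
  cj : Cj f (flQ p H) K₀ (fun i => (a i : Qb)) (((p : ℕ) : Qb) ^ 2)
  ext₀ : Ext f τ₀
  ext : Ext (flQ p H) τ
  prim : Prim (flQ p H) θ Φ Δ R
  inj : Function.Injective (aeval (flQ p H) : Po 3 Qb →ₐ[Qb] Po 3 Qb)
  inv : NoInv (flQ p H)
  deg : Φ.natDegree = e ^ K₀
  dgt : deh (τ : K3 Qb →+* K3 Qb) = Φ.natDegree
  sup : SupP (flQ p H) Φ.natDegree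

/-- if no orbit in `b ≠ 0` is dense, then the orbit closures of general points are curves -/
theorem supP (hEXX : T_EXX) (hCVE : T_CVE) (hDGN : T_DGN) (hNIT : T_NIT) (hPEL : T_PEL)
    (hDGC : T_DGC) (hGDP : T_GDP) (hVMX : T_VMX) (hRDT : T_RDT) (hCRV : T_CRV) (hRNK : T_RNK)
    (hRTD : T_RTD) (f : Tup 3 Qb) (b : Po 3 Qb) (θ₀ : Po 3 Qb)
    (Φ₀ : Polynomial (Po 3 Qb)) (Δ₀ : Po 3 Qb) (R₀ : Fin 3 → Polynomial (Po 3 Qb))
    (hinj : Function.Injective (aeval f : Po 3 Qb →ₐ[Qb] Po 3 Qb)) (hinv : NoInv f)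
    (hprim₀ : Prim f θ₀ Φ₀ Δ₀ R₀) (hb : b ≠ 0) :
    (∃ x : Fin 3 → Qb, (∀ n : ℕ, eval ((pmap f)^[n] x) b ≠ 0) ∧ DenseOrbit f x) ∨
      ∃ (p : Nat.Primes) (K₀ : ℕ) (a : Fin 3 → O p) (H : Tup 3 (O p))
        (τ₀ τ : K3 Qb →ₐ[Qb] K3 Qb) (θ : Po 3 Qb) (Φ : Polynomial (Po 3 Qb)) (Δ : Po 3 Qb)
        (R : Fin 3 → Polynomial (Po 3 Qb)), CD f Φ₀.natDegree p K₀ a H τ₀ τ θ Φ Δ R := by
  set e : ℕ := Φ₀.natDegree with he
  obtain ⟨τ₀, hτ₀⟩ := hEXX 3 Qb f hinj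
  have hcov : Cov f e := hCVE 3 Qb f θ₀ Φ₀ Δ₀ R₀ hinj hprim₀
  have hdeg₀ : deh (τ₀ : K3 Qb →+* K3 Qb) = e := hDGN 3 Qb f τ₀ θ₀ Φ₀ Δ₀ R₀ hinj hτ₀ hprim₀
  have he1 : 1 ≤ e := by
    rcases Nat.eq_zero_or_pos e with h | h
    · exfalso
      have h1 : Φ₀ = 1 := by
        have h2 := Polynomial.eq_C_of_natDegree_eq_zero (he ▸ h)
        have h3 := hprim₀.monic
        rw [h2, Polynomial.Monic, Polynomial.leadingCoeff_C] at h3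
        rw [h2, h3, Polynomial.C_1]
      have h2 := hprim₀.root
      rw [h1, ev2, Polynomial.eval₂_one] at h2
      exact one_ne_zero h2
    · exact h
  obtain ⟨p, K₀, a, H, hp, hK, hcovG, hinjG, -, hconj, hav⟩ := setup f b e he1 hcov hb
  set G : Tup 3 Qb := flQ p H with hG
  have hp0 : ((p : ℕ) : Qb) ^ 2 ≠ 0 := pow_ne_zero 2 (Nat.cast_ne_zero.mpr p.2.ne_zero)
  have hCj : Cj f G K₀ (fun i => (a i : Qb)) (((p : ℕ) : Qb) ^ 2) := ⟨hp0, hK, hconj⟩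
  have hinvG : NoInv G := by
    apply noInv_conj (it f K₀) G (fun i => (a i : Qb)) hp0 _ (hNIT 3 Qb f K₀ hinj hK hinv)
    intro z
    rw [pmap_it]
    exact hconj z
  obtain ⟨τ, hτ⟩ := hEXX 3 Qb G hinjG
  obtain ⟨θ, Φ, Δ, R, hprim⟩ := hPEL 3 Qb G hinjG
  have hdeg : deh (τ : K3 Qb →+* K3 Qb) = Φ.natDegree :=
    hDGN 3 Qb G τ θ Φ Δ R hinjG hτ hprim
  have hEe : Φ.natDegree = e ^ K₀ := by
    rw [← hdeg, ← hdeg₀]
    exact hDGC 3 Qb f G K₀ _ _ τ₀ τ hCj hτ₀ hτ (by rw [hdeg₀]; exact he1)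
  have hcovE : Cov G Φ.natDegree := hCVE 3 Qb G θ Φ Δ R hinjG hprim
  have hE1 : 1 ≤ Φ.natDegree := by
    rw [hEe]
    exact Nat.one_le_pow _ _ he1
  by_cases hno : ∃ x : Fin 3 → Qb, (∀ n : ℕ, eval ((pmap f)^[n] x) b ≠ 0) ∧ DenseOrbit f x
  · exact Or.inl hno
  refine Or.inr ⟨p, K₀, a, H, τ₀, τ, θ, Φ, Δ, R, hp, hCj, hτ₀, hτ, hprim, hinjG, hinvG, hEe,
    hdeg, ?_⟩
  have hbot : ∀ z : Fin 3 → ℤ, van G (cZ z) ≠ ⊥ := by
    intro z hz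
    apply hno
    refine ⟨lam p a (cO fun i => ((z i : ℤ) : O p)), fun n => hav n _, ?_⟩
    apply dense_of_conj f p K₀ a H hconj
    rw [cO_intCast]
    exact hz
  obtain ⟨c₁, hc₁, h₁⟩ := rnk_deg hRNK hinjG hinvG hRTD 1
  intro c hc
  obtain ⟨z, hzy, hz, hI, hpr, hor⟩ := hGDP 3 p H Φ.natDegree (c * (Δ * c₁)) 1 0
    (by norm_num) hp hcovE hE1 hinvG (mul_ne_zero hc (mul_ne_zero hprim.ne hc₁)) le_rfl
  rw [map_mul, map_mul] at hz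
  rcases hor with h | ⟨hSS, θ', hθ'⟩
  · exact absurd h (hbot z)
  · have hz2 := right_ne_zero_of_mul hz
    refine ⟨cZ z, left_ne_zero_of_mul hz, ?_⟩
    obtain ⟨F, i1, i2, π, τ', hvm⟩ := hVMX 3 Qb G (van G (cZ z)) hpr hI
    have hcv : Cv Qb π.range := by
      refine hCRV Qb G (van G (cZ z)) F π τ' hvm hSS ?_
      intro c' hc'
      have h2 := h₁ (cZ z) (right_ne_zero_of_mul hz2) _ (by
        refine (totalDegree_sub_C _ c').trans ?_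
        rw [totalDegree_X]) hc'
      have h3 := congrArg totalDegree (sub_eq_zero.1 h2)
      rw [totalDegree_X, totalDegree_C] at h3
      exact one_ne_zero h3
    have hΔ : Δ ∉ van G (cZ z) := fun h' => left_ne_zero_of_mul hz2 (h' 0)
    obtain ⟨-, -, hdeg', -⟩ := hRDT 3 Qb G τ θ Φ Δ R (van G (cZ z)) F π τ' hinjG hτ hprim hvm
      hΔ ⟨θ', hθ'⟩
    exact ⟨F, i1, i2, π, τ', hvm, hcv, hdeg'⟩

end Pool.Agent.H55.FFM
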