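import Pool.Agent.H55.FFM.TP
import Pool.Agent.H18.HIT.Targets

/-!
# Maps of affine 3-space with finite fibres: Euler-Jacobi residues and reduction to the curve
-/

open MvPolynomial
open Pool.Agent.H12.ZD (pmap v O Res DenseOrbit NoInv)
open Pool.Agent.H18.HIT

namespace Pool.Agent.H55.FFM

/-- the field of rational functions -/
abbrev KN (N : ℕ) (k : Type) [Field k] : Type := FractionRing (Po N k)

/-- a polynomial as a rational function -/
noncomputable abbrev fr {N : ℕ} {k : Type} [Field k] (q : Po N k) : KN N k :=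
  algebraMap (Po N k) (KN N k) q

/-- `τ` is the pull back of rational functions under `G` -/
def Ext {N : ℕ} {k : Type} [Field k] (G : Tup N k) (τ : KN N k →ₐ[k] KN N k) : Prop :=
  ∀ q : Po N k, τ (fr q) = fr (aeval G q)

/-- integral over the ring of the polynomials in `G` -/
def Itg {N : ℕ} {k : Type} [Field k] (G : Tup N k) (a : Po N k) : Prop :=
  (aeval G : Po N k →ₐ[k] Po N k).toRingHom.IsIntegralElem a

/-- `G` is finite above the open set `β ≠ 0` -/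
def LFN {N : ℕ} {k : Type} [Field k] (G : Tup N k) (β : Po N k) : Prop :=
  ∀ a : Po N k, ∃ n : ℕ, Itg G (aeval G β ^ n * a)

/-- the integral closure of the ring of the polynomials in `G` is everything where `r ≠ 0` -/
def Zm {N : ℕ} {k : Type} [Field k] (G : Tup N k) (r : Po N k) : Prop :=
  Itg G r ∧ ∀ a : Po N k, ∃ n : ℕ, Itg G (r ^ n * a)

/-- polynomials in `x` whose coefficients are polynomials in `a` -/
abbrev PP (N : ℕ) (k : Type) [Field k] : Type := MvPolynomial (Fin N) (Po N k)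

/-- a polynomial in `x` with constant coefficients -/
noncomputable def up {N : ℕ} {k : Type} [Field k] (q : Po N k) : PP N k :=
  MvPolynomial.map (algebraMap k (Po N k)) q

/-- the value at `x = y` and at the parameter `a` -/
noncomputable def ev3 {N : ℕ} {k Ω : Type} [Field k] [Field Ω] [Algebra k Ω] (a y : Fin N → Ω)
    (q : PP N k) : Ω := eval₂ (aeval a : Po N k →ₐ[k] Ω).toRingHom y q

/-- the value `P(a, t)` of a polynomial in `t` with coefficients in `k[a]` -/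
noncomputable def ev1 {N : ℕ} {k Ω : Type} [Field k] [Field Ω] [Algebra k Ω] (a : Fin N → Ω)
    (t : Ω) (P : Polynomial (Po N k)) : Ω :=
  P.eval₂ (aeval a : Po N k →ₐ[k] Ω).toRingHom t

/-- the closed set `V(I)` is mapped to itself: `π` is the restriction of polynomials, `F` the
field of rational functions, `τ'` the pull back -/
structure VM {N : ℕ} {k : Type} [Field k] (G : Tup N k) (I : Ideal (Po N k)) {F : Type} [Field F]
    [Algebra k F] (π : Po N k →ₐ[k] F) (τ' : F →ₐ[k] F) : Prop where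
  ker : ∀ q, π q = 0 ↔ q ∈ I
  com : ∀ q, τ' (π q) = π (aeval G q)
  top : IntermediateField.adjoin k (Set.range π) = ⊤

/-- `E` elements are independent on `V(I)` over the polynomials in `G` -/
def Ind {N : ℕ} {k : Type} [Field k] (G : Tup N k) (I : Ideal (Po N k)) (E : ℕ) (θ : Po N k) :
    Prop :=
  ∀ g : Fin E → Po N k, (∑ i : Fin E, θ ^ (i : ℕ) * aeval G (g i)) ∈ I → ∀ i, g i ∈ I

/-! ## Euler's formula and the Jacobian -/

/-- Euler's formula -/
def T_EUL : Prop := ∀ (L Ω : Type) [Field L] [Field Ω] [Algebra L Ω] [IsAlgClosed Ω]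
  (B : Subring L) (P : Polynomial L), P.Monic → (∀ i, P.coeff i ∈ B) → P.Separable →
  ∀ (s : Finset Ω), (∀ y, y ∈ s ↔ Polynomial.aeval y P = 0) → ∀ g : ℕ, ∃ b ∈ B,
    ∑ y ∈ s, y ^ g / Polynomial.aeval y (Polynomial.derivative P) = algebraMap L Ω b

/-- difference quotients -/
def T_DQT : Prop := ∀ (N : ℕ) (k : Type) [Field k] (G : Tup N k) (x : Po N k)
  (P : Polynomial (Po N k)), ev2 G x P = 0 → ∃ c : Fin N → PP N k,
    Polynomial.aeval (up x) P = ∑ i, c i * (up (G i) - C (X i))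

/-- the determinant of the difference quotients -/
def T_JCI : Prop := ∀ (N : ℕ) (k Ω : Type) [Field k] [Field Ω] [Algebra k Ω] (G : Tup N k)
  (P : Fin N → Polynomial (Po N k)) (c : Fin N → Fin N → PP N k),
  (∀ j, Polynomial.aeval (up (X j : Po N k)) (P j) = ∑ i, c j i * (up (G i) - C (X i))) →
  ∀ a y : Fin N → Ω,
    ((∀ i, aeval y (G i) = a i) → (Matrix.of fun j i => ev3 a y (c j i)).det * aeval y (jac G) =
      ∏ j, ev1 a (y j) (Polynomial.derivative (P j))) ∧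
    ((∀ j, ev1 a (y j) (P j) = 0) → (∃ i, aeval y (G i) ≠ a i) →
      (Matrix.of fun j i => ev3 a y (c j i)).det = 0)

/-- the points of the generic fibre are the conjugates of the generic point -/
def T_FBR : Prop := ∀ (N : ℕ) (k : Type) [Field k] (G : Tup N k) (τ : KN N k →ₐ[k] KN N k)
  (Ω : Type) [Field Ω] [Algebra k Ω] [Algebra (KN N k) Ω] [IsScalarTower k (KN N k) Ω],
  Function.Injective (aeval G : Po N k →ₐ[k] Po N k) → Ext G τ → ∀ y : Fin N → Ω,
  (∀ i, aeval y (G i) = algebraMap (KN N k) Ω (τ (fr (X i)))) → ∃ ρ : KN N k →+* Ω,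
    (∀ i, ρ (fr (X i)) = y i) ∧ (∀ c : k, ρ (algebraMap k (KN N k) c) = algebraMap k Ω c) ∧
    ∀ a, ρ (τ a) = algebraMap (KN N k) Ω (τ a)

/-- the minimal polynomials have coefficients in `k[a][1/β]` -/
def T_MIN : Prop := ∀ (N : ℕ) (k : Type) [Field k] [CharZero k] (G : Tup N k)
  (τ : KN N k →ₐ[k] KN N k) (β : Po N k), Function.Injective (aeval G : Po N k →ₐ[k] Po N k) →
  Ext G τ → 1 ≤ deh (τ : KN N k →+* KN N k) → β ≠ 0 → LFN G β → ∀ x : Po N k,
  ∃ (m : Polynomial (KN N k)) (n : ℕ) (P : Polynomial (Po N k)), m.Monic ∧ Irreducible m ∧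
    ((m.map (τ : KN N k →+* KN N k)).eval (fr x) = 0) ∧ ev2 G x P = 0 ∧
    P.map (algebraMap (Po N k) (KN N k)) = Polynomial.C (fr β ^ n) * m

/-- the trace as the sum of the conjugates -/
def T_TRE : Prop := ∀ (F Ω : Type) [Field F] [CharZero F] [Field Ω] [IsAlgClosed Ω] [Algebra F Ω]
  (τ : F →+* F), 1 ≤ deh τ → ∃ s : Finset (F →+* Ω),
    (∀ ρ, ρ ∈ s ↔ ∀ a, ρ (τ a) = algebraMap F Ω (τ a)) ∧
    ∀ a, algebraMap F Ω (τ (trh τ a)) = ∑ ρ ∈ s, ρ a

/-- Euler-Jacobi: the trace of `Q / J` is a polynomial -/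
def T_EJF : Prop := ∀ (N : ℕ) (k : Type) [Field k] [CharZero k] (G : Tup N k)
  (τ : KN N k →ₐ[k] KN N k) (β : Po N k), Function.Injective (aeval G : Po N k →ₐ[k] Po N k) →
  Ext G τ → 1 ≤ deh (τ : KN N k →+* KN N k) → β ≠ 0 → LFN G β → ∀ Q : Po N k,
  ∃ (n : ℕ) (g : Po N k), fr β ^ n * trh (τ : KN N k →+* KN N k) (fr Q / fr (jac G)) = fr g

/-! ## Reduction to an invariant closed set -/

/-- the field of rational functions of `V(I)` -/
def T_VMX : Prop := ∀ (N : ℕ) (k : Type) [Field k] (G : Tup N k) (I : Ideal (Po N k)),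
  I.IsPrime → (∀ q, aeval G q ∈ I ↔ q ∈ I) → ∃ (F : Type) (_ : Field F) (_ : Algebra k F)
    (π : Po N k →ₐ[k] F) (τ' : F →ₐ[k] F), VM G I π τ'

/-- the pull back of rational functions -/
def T_EXX : Prop := ∀ (N : ℕ) (k : Type) [Field k] (G : Tup N k),
  Function.Injective (aeval G : Po N k →ₐ[k] Po N k) → ∃ τ : KN N k →ₐ[k] KN N k, Ext G τ

/-- reduction of traces and norms -/
def T_RDT : Prop := ∀ (N : ℕ) (k : Type) [Field k] [CharZero k] (G : Tup N k)
  (τ : KN N k →ₐ[k] KN N k) (θ : Po N k) (Φ : Polynomial (Po N k)) (Δ : Po N k)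
  (R : Fin N → Polynomial (Po N k)) (I : Ideal (Po N k)) (F : Type) [Field F] [Algebra k F]
  (π : Po N k →ₐ[k] F) (τ' : F →ₐ[k] F),
  Function.Injective (aeval G : Po N k →ₐ[k] Po N k) → Ext G τ → Prim G θ Φ Δ R →
  VM G I π τ' → Δ ∉ I → (∃ θ' : Po N k, Ind G I Φ.natDegree θ') →
  1 ≤ Φ.natDegree ∧ deh (τ : KN N k →+* KN N k) = Φ.natDegree ∧
  deh (τ' : F →+* F) = Φ.natDegree ∧
  ∀ u : Po N k, ∃ (m : ℕ) (g h u₁ : Po N k),
    fr Δ ^ m * trh (τ : KN N k →+* KN N k) (fr u) = fr g ∧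
    π Δ ^ m * trh (τ' : F →+* F) (π u) = π g ∧
    fr Δ ^ m * nmh (τ : KN N k →+* KN N k) (fr u) = fr h ∧
    π Δ ^ m * nmh (τ' : F →+* F) (π u) = π h ∧
    u * u₁ = aeval G h

/-- the traces of `q / J` on an invariant closed set -/
def T_JTR : Prop := ∀ (N : ℕ) (k : Type) [Field k] [CharZero k] (G : Tup N k)
  (τ : KN N k →ₐ[k] KN N k) (θ : Po N k) (Φ : Polynomial (Po N k)) (Δ : Po N k)
  (R : Fin N → Polynomial (Po N k)) (I : Ideal (Po N k)) (F : Type) [Field F] [Algebra k F]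
  (π : Po N k →ₐ[k] F) (τ' : F →ₐ[k] F) (β : Po N k),
  Function.Injective (aeval G : Po N k →ₐ[k] Po N k) → Ext G τ → Prim G θ Φ Δ R →
  VM G I π τ' → Δ ∉ I → (∃ θ' : Po N k, Ind G I Φ.natDegree θ') → LFN G β → π β = 1 →
  jac G ∉ I → ∀ q : Po N k, ∃ g : Po N k, trh (τ' : F →+* F) (π q / π (jac G)) = π g

/-! ## Finite fibres -/

/-- Zariski's main theorem for a map with finite fibres -/
def T_ZMT : Prop := ∀ (N : ℕ) (k : Type) [Field k] [IsAlgClosed k] (G : Tup N k),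
  (∀ y : Fin N → k, {x | pmap G x = y}.Finite) → ∃ (m : ℕ) (a r : Fin m → Po N k),
    ∑ i, a i * r i = 1 ∧ ∀ i, Zm G (r i)

/-- an element of the ideal of Zariski's main theorem which is `1` on `V(I)` -/
def T_RON : Prop := ∀ (N : ℕ) (k : Type) [Field k] (G : Tup N k) (I : Ideal (Po N k))
  (F : Type) [Field F] [Algebra k F] (π : Po N k →ₐ[k] F) (τ' : F →ₐ[k] F), VM G I π τ' →
  (∀ x : Po N k, IsIntegral (π.range.map τ') (π x)) →
  (∃ (m : ℕ) (a r : Fin m → Po N k), ∑ i, a i * r i = 1 ∧ ∀ i, Zm G (r i)) →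
  ∃ r : Po N k, Zm G r ∧ π r = 1

/-- the norm of this element -/
def T_BET : Prop := ∀ (N : ℕ) (k : Type) [Field k] [CharZero k] (G : Tup N k)
  (τ : KN N k →ₐ[k] KN N k) (θ : Po N k) (Φ : Polynomial (Po N k)) (Δ : Po N k)
  (R : Fin N → Polynomial (Po N k)) (I : Ideal (Po N k)) (F : Type) [Field F] [Algebra k F]
  (π : Po N k →ₐ[k] F) (τ' : F →ₐ[k] F) (r : Po N k),
  Function.Injective (aeval G : Po N k →ₐ[k] Po N k) → Ext G τ → Prim G θ Φ Δ R →
  VM G I π τ' → Δ ∉ I → (∃ θ' : Po N k, Ind G I Φ.natDegree θ') → Zm G r → π r = 1 →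
  ∃ β : Po N k, π β = 1 ∧ LFN G β

/-- chain rule for the jacobian determinant -/
def T_CHR : Prop := ∀ (N : ℕ) (R : Type) [CommRing R] (f g : Tup N R),
  jac (comp f g) = aeval g (jac f) * jac g

/-- a birational map with finite fibres is an automorphism -/
def T_AUT : Prop := ∀ (N : ℕ) (k : Type) [Field k] [CharZero k] (G : Tup N k)
  (τ : KN N k →ₐ[k] KN N k), Function.Injective (aeval G : Po N k →ₐ[k] Po N k) → Ext G τ →
  deh (τ : KN N k →+* KN N k) = 1 →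
  (∃ (m : ℕ) (a r : Fin m → Po N k), ∑ i, a i * r i = 1 ∧ ∀ i, Zm G (r i)) →
  ∃ c : k, jac G = C c

/-! ## Orbits -/

/-- no orbit closure of a general point is contained in a hypersurface from a finite dimensional
family -/
def T_RNK : Prop := ∀ (N : ℕ) (k : Type) [Field k] (G : Tup N k) (W : Submodule k (Po N k)),
  Function.Injective (aeval G : Po N k →ₐ[k] Po N k) → NoInv G → FiniteDimensional k W →
  ∃ c : Po N k, c ≠ 0 ∧ ∀ z : Fin N → k, eval z c ≠ 0 → ∀ S ∈ W, S ∈ van G z → S = 0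

/-- points with integer coordinates in a residue class whose fibre is one Galois orbit -/
def T_HIC : Prop := ∀ (N : ℕ) (G : Tup N Qb) (c : Po N Qb) (m : ℕ) (y : Fin N → ℤ),
  Function.Injective (aeval G : Po N Qb →ₐ[Qb] Po N Qb) → c ≠ 0 → 1 ≤ m →
  ∃ z : Fin N → ℤ, (∀ i, (m : ℤ) ∣ z i - y i) ∧ eval (cZ z) c ≠ 0 ∧
    ∀ P P' : Fin N → Qb, pmap G P = cZ z → pmap G P' = cZ z → ∃ σ : Qb ≃+* Qb,
      (∀ i, map (σ : Qb →+* Qb) (G i) = G i) ∧ ∀ i, σ (P i) = P' i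

/-- good points in a residue class -/
def T_GDP : Prop := ∀ (N : ℕ) (p : Nat.Primes) (H : Tup N (O p)) (E : ℕ) (c : Po N Qb) (m : ℕ)
  (y : Fin N → ℤ), 2 ≤ N → 3 ≤ (p : ℕ) → Cov (flQ p H) E → 1 ≤ E → NoInv (flQ p H) → c ≠ 0 →
  1 ≤ m → ∃ z : Fin N → ℤ, (∀ i, (m : ℤ) ∣ z i - y i) ∧ eval (cZ z) c ≠ 0 ∧
    (∀ q, aeval (flQ p H) q ∈ van (flQ p H) (cZ z) ↔ q ∈ van (flQ p H) (cZ z)) ∧
    (van (flQ p H) (cZ z)).IsPrime ∧
    (van (flQ p H) (cZ z) = ⊥ ∨
      (∃ S ∈ van (flQ p H) (cZ z), ∃ S' ∈ van (flQ p H) (cZ z), S ≠ 0 ∧ S' ≠ 0 ∧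
        IsRelPrime S S') ∧
      ∃ θ : Po N Qb, Ind (flQ p H) (van (flQ p H) (cZ z)) E θ)

/-- a place where a polynomial has a zero with integer coordinates -/
def T_WPL : Prop := ∀ (N : ℕ) (J : Po N Qb) (A : Finset Qb), (∀ c : Qb, J ≠ C c) →
  ∃ (p : Nat.Primes) (σ : Qb ≃+* Qb) (y : Fin N → ℤ), (∀ a ∈ A, v p (σ a) ≤ 1) ∧
    v p (σ (eval (cZ y) J)) < 1

/-- `J` is not a unit on the orbit closure if `J` is totally invariant -/
def T_UNI : Prop := ∀ (N : ℕ) (G : Tup N Qb) (J B : Po N Qb) (γ : Qb) (E : ℕ)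
  (p : Nat.Primes) (σ : Qb ≃+* Qb) (y z : Fin N → ℤ), 2 ≤ E →
  (∀ i m, v p (σ (coeff m (G i))) ≤ 1) → (∀ m, v p (σ (coeff m J)) ≤ 1) → v p (σ γ) ≤ 1 →
  v p (σ (eval (cZ y) J)) < 1 → (∀ i, ((p : ℕ) : ℤ) ∣ z i - y i) →
  aeval G (aeval G J) = C γ * J ^ (E ^ 2) → J * B - 1 ∈ van G (cZ z) → False

end Pool.Agent.H55.FFM
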