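import Pool.Agent.H8.HIT.B
import Pool.Agent.H55.FFM.TE

/-!
# Maps of affine 3-space with finite fibres: good points in a residue class
-/

open MvPolynomial
open Pool.Agent.H12.ZD (pmap v O Res DenseOrbit NoInv)
open Pool.Agent.H18.HIT
open Pool.Agent.H8.HIT (cov_pos_inj jac_fl_ne cO_intCast eval_sigma_jac eval_sigma_van)

namespace Pool.Agent.H55.FFM

theorem pf_GDP (hINC : Pool.Agent.H18.HIT.T_INC) (hPRM : Pool.Agent.H18.HIT.T_PRM)
    (hPEL : Pool.Agent.H18.HIT.T_PEL) (hHIC : T_HIC) (hPRE : Pool.Agent.H18.HIT.T_PRE)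
    (hSTR : Pool.Agent.H18.HIT.T_STR) (hAVO : Pool.Agent.H18.HIT.T_AVO)
    (hIGC : Pool.Agent.H18.HIT.T_IGC) (hLYO : Pool.Agent.H18.HIT.T_LYO)
    (hHYP : Pool.Agent.H18.HIT.T_HYP) (hCAN : Pool.Agent.H18.HIT.T_CAN) : T_GDP := by
  intro N p H E c m y hN hp hcov hE hinv hc hm
  have hinj := cov_pos_inj hE hcov
  obtain ⟨c₁, hc₁, hint⟩ := hIGC N Qb (flQ p H) hinj
  have hB₀ : aeval (flQ p H) c₁ ≠ 0 := by
    intro h0
    exact hc₁ (hinj (by rw [h0, map_zero]))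
  obtain ⟨b₂, hb₂, hcan⟩ := hCAN N Qb (flQ p H) (aeval (flQ p H) c₁) hinj hinv hB₀
  obtain ⟨θ₀, Φ, Δ, R, hprim⟩ := hPEL N Qb (flQ p H) hinj
  obtain ⟨cG, hcG0, hcG⟩ := hcov
  obtain ⟨z₀, hdz, hz₀, hgal⟩ := hHIC N (flQ p H) (c * ((c₁ * b₂) * (Δ * cG))) m y hinj
    (mul_ne_zero hc (mul_ne_zero (mul_ne_zero hc₁ hb₂) (mul_ne_zero hprim.ne hcG0))) hm
  set z : Fin N → O p := fun i => ((z₀ i : ℤ) : O p) with hz
  have hzc : cO z = cZ z₀ := cO_intCast p z₀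
  rw [map_mul, map_mul, map_mul, map_mul] at hz₀
  have hzC : eval (cZ z₀) c ≠ 0 := left_ne_zero_of_mul hz₀
  have hzr := right_ne_zero_of_mul hz₀
  have hzc₁ : eval (cO z) c₁ ≠ 0 := by
    rw [hzc]
    exact left_ne_zero_of_mul (left_ne_zero_of_mul hzr)
  have hzb₂ : eval (cO z) b₂ ≠ 0 := by
    rw [hzc]
    exact right_ne_zero_of_mul (left_ne_zero_of_mul hzr)
  have hzΔ : eval (cO z) Δ ≠ 0 := by
    rw [hzc]
    exact left_ne_zero_of_mul (right_ne_zero_of_mul hzr)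
  have hzcG : eval (cO z) cG ≠ 0 := by
    rw [hzc]
    exact right_ne_zero_of_mul (right_ne_zero_of_mul hzr)
  obtain ⟨P, hP, hPvan⟩ := hPRE N p H z θ₀ Φ Δ R hp hprim hzΔ
  obtain ⟨S, hS, hS'⟩ := hcG (cO z) hzcG
  have hPG : pmap (flQ p H) (cO P) = cO z := by
    rw [← hP]
    exact pmap_cO (fl p H) P
  have hgal' : ∀ P' : Fin N → Qb, pmap (flQ p H) P' = cO z → ∃ σ : Qb ≃+* Qb,
        (∀ i, map (σ : Qb →+* Qb) (flQ p H i) = flQ p H i) ∧ (∀ i, σ (cO z i) = cO z i) ∧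
        ∀ i, σ (cO P i) = P' i := by
    intro P' hP'
    obtain ⟨σ, hσ1, hσ2⟩ := hgal (cO P) P' (by rw [← hzc]; exact hPG) (by rw [← hzc]; exact hP')
    refine ⟨σ, hσ1, fun i => ?_, hσ2⟩
    rw [hzc]
    exact map_intCast σ (z₀ i)
  obtain ⟨θ, hθ⟩ : ∃ θ : Po N Qb, ∀ g : Fin E → Po N Qb,
      (∑ i : Fin E, θ ^ (i : ℕ) * aeval (flQ p H) (g i)) ∈ van (flQ p H) (cO z) →
        ∀ i, g i ∈ van (flQ p H) (cO z) := by
    subst hS
    exact hSTR N Qb (flQ p H) (cO z) (cO P) S hPG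
      (fun n => by rw [flQ_iterate]; exact jac_fl_ne p H _) (jac_fl_ne p H P) hPvan
      (fun h q hhq hh => hINC N p H z h q hp hhq hh) (fun P' hP' => hgal' P' (hS' P' hP'))
  have hprime : (van (flQ p H) (cO z)).IsPrime := hPRM N p H z hp
  refine ⟨z₀, hdz, hzC, ?_⟩
  rw [← hzc]
  refine ⟨?_, hprime, ?_⟩
  · intro q
    refine ⟨fun hq => ?_, fun hq => van_aeval hq⟩
    have h1 := hθ (fun i => if i = (⟨0, hE⟩ : Fin E) then q else 0) (by
      rw [Finset.sum_eq_single (⟨0, hE⟩ : Fin E)]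
      · simpa using hq
      · intro i _ hi
        rw [if_neg hi, map_zero, mul_zero]
      · intro h
        exact absurd (Finset.mem_univ _) h) ⟨0, hE⟩
    simpa using h1
  · by_cases hne : van (flQ p H) (cO z) = ⊥
    · exact Or.inl hne
    refine Or.inr ⟨?_, θ, hθ⟩
    by_cases hcase : ∀ W : Po N Qb, Irreducible W → ∃ c ∈ van (flQ p H) (cO z), ¬ W ∣ c
    · exact hAVO N Qb _ hne hcase
    · exfalso
      push Not at hcase
      obtain ⟨W, hW, hdvd⟩ := hcase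
      obtain ⟨Y, hY, hYp⟩ := hprime.exists_mem_prime_of_ne_bot hne
      have hWI : W ∈ van (flQ p H) (cO z) := by
        have h1 : Associated W Y := hW.associated_of_dvd hYp.irreducible (hdvd Y hY)
        obtain ⟨u, hu⟩ := h1.symm
        rw [← hu]
        exact Ideal.mul_mem_right _ _ hY
      have hiff : ∀ c : Po N Qb, c ∈ van (flQ p H) (cO z) ↔ W ∣ c := by
        intro c
        refine ⟨hdvd c, ?_⟩
        rintro ⟨d, rfl⟩
        exact Ideal.mul_mem_right _ _ hWI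
      obtain ⟨Z, hZ⟩ := hdvd _ (van_aeval hWI)
      have hWz : eval (cO z) W = 0 := hWI 0
      have hall : ∀ Y : Po N Qb, Irreducible Y → Y ∣ Z → Y ∣ aeval (flQ p H) c₁ := by
        intro Y hY hYZ
        by_contra hnd
        obtain ⟨P', hP'Y, hP'⟩ := hLYO N Qb (flQ p H) c₁ W Y (cO z) hinj hint
          hzc₁ hW hWz hY (hZ ▸ hYZ.mul_left W) hnd
        obtain ⟨σ, hσ1, hσ2, hσ3⟩ := hgal' P' hP'
        have hjac := eval_sigma_jac hσ1 hσ3 (jac_fl_ne p H P)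
        have hW' := eval_sigma_van hσ1 hσ2 hσ3 hPvan hWI
        apply hHYP N Qb (flQ p H) W Z (cO z)
          (fun n => by rw [flQ_iterate]; exact jac_fl_ne p H _) hW hiff hZ P' hP' hjac hW'
        obtain ⟨d, hd⟩ := hYZ
        rw [hd, map_mul, hP'Y, zero_mul]
      obtain ⟨d, hd⟩ := hcan W Z hW hZ hall
      apply hzb₂
      rw [hd, map_mul, hWz, zero_mul]

end Pool.Agent.H55.FFM
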