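import Pool.Agent.H55.FFM.TE
import Pool.Agent.H8.TD.Defs

/-!
# Maps of affine 3-space with finite fibres: degrees
-/

open MvPolynomial
open Pool.Agent.H12.ZD (pmap v O Res DenseOrbit NoInv)
open Pool.Agent.H18.HIT
open Pool.Agent.H8.TD (lc Wsp K3 xx ph)

namespace Pool.Agent.H55.FFM

/-- the degree in the first variable -/
noncomputable def dgX {k : Type} [Field k] (Ξ : Polynomial (Polynomial k)) : ℕ :=
  Ξ.support.sup fun i => (Ξ.coeff i).natDegree

/-- the value at `(a, b)` -/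
noncomputable def evX {k F : Type} [Field k] [CommRing F] [Algebra k F] (a b : F)
    (Ξ : Polynomial (Polynomial k)) : F :=
  Ξ.eval₂ (Polynomial.aeval a : Polynomial k →ₐ[k] F).toRingHom b

/-! ## Known facts (proved on the board of H8/TD) -/

/-- the number of zeros of a section on a curve -/
def T_CLZ : Prop := ∀ (k κ C : Type) [Field k] [Infinite k] [Field κ] [CharZero κ] [Field C]
  [Algebra k κ] [Algebra κ C] [Algebra k C] [IsScalarTower k κ C] (a b : ℕ) (φ : Fin a → C)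
  (ψ : Fin b → C) (M M' n l : ℕ) (R : Subalgebra κ C),
  (∃ y : C, FiniteDimensional (IntermediateField.adjoin κ {y}) C) → R.FG →
  (∀ i, φ i ∈ R) → (∀ i, ψ i ∈ R) →
  (∀ s : Fin a → k, dg κ {lc s φ} ≤ M) → (∀ s : Fin b → k, dg κ {lc s ψ} ≤ M') →
  ∀ S : R, (S : C) ∈ Wsp κ φ ψ n l → S ≠ 0 →
    Module.Finite κ (R ⧸ Ideal.span {S}) ∧
    Module.finrank κ (R ⧸ Ideal.span {S}) ≤ n * M + l * M'

/-- the dimension of a space of sections on a curve -/
def T_CLR : Prop := ∀ (k κ C : Type) [Field k] [Infinite k] [Field κ] [CharZero κ] [Field C]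
  [Algebra k κ] [Algebra κ C] [Algebra k C] [IsScalarTower k κ C] (a b : ℕ) (φ : Fin a → C)
  (ψ : Fin b → C) (M M' n l : ℕ),
  (∃ y : C, FiniteDimensional (IntermediateField.adjoin κ {y}) C) →
  IntermediateField.adjoin κ (Set.range φ ∪ Set.range ψ) = ⊤ →
  (∀ s : Fin a → k, dg κ {lc s φ} ≤ M) → (∀ s : Fin b → k, dg κ {lc s ψ} ≤ M') →
  (∃ s : Fin b → k, Transcendental κ (lc s ψ)) →
  Module.finrank κ (Wsp κ φ ψ n l) ≤ n * M + (l + 1) * M'

/-- degrees over a field generated in two steps -/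
def T_ADJ : Prop := ∀ (k K : Type) [Field k] [Field K] [Algebra k K] (S : Set K) (c : K),
  dg (IntermediateField.adjoin k S) {c} = dg k (insert c S)

/-- the degree of a rational function in `φ` -/
def T_PDG : Prop := ∀ (k κ C : Type) [Field k] [Infinite k] [Field κ] [CharZero κ] [Field C]
  [Algebra k κ] [Algebra κ C] [Algebra k C] [IsScalarTower k κ C] (a : ℕ) (φ : Fin a → C)
  (M δ : ℕ) (P P₀ : MvPolynomial (Fin a) κ),
  (∃ y : C, FiniteDimensional (IntermediateField.adjoin κ {y}) C) →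
  (∃ y : C, Transcendental κ y) →
  (∀ s : Fin a → k, dg κ {lc s φ} ≤ M) → P.totalDegree ≤ δ → P₀.totalDegree ≤ δ →
  aeval φ P₀ ≠ 0 → dg κ {aeval φ P / aeval φ P₀} ≤ δ * M

/-- a bound for the degrees of linear forms in the coordinates and in the coordinates of an
iterate -/
def T_BBD : Prop := ∀ (k : Type) [Field k] [CharZero k] (G : Tup 3 k) (τ : K3 k →ₐ[k] K3 k)
  (n : ℕ), Ext G τ → ∃ b : ℕ, ∀ s s' s'' : Fin 3 → k,
    dg k {lc s (xx k), lc s' (xx k), lc s'' (ph τ n)} ≤ b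

/-! ## Curves -/

/-- common zeros of two relatively prime polynomials -/
def T_CTN : Prop := ∀ (N : ℕ) (k Ω : Type) [Field k] [Field Ω] [Algebra k Ω] (S S' : Po N k)
  (ξ : Fin N → Ω), 2 ≤ N → S ≠ 0 → S' ≠ 0 → IsRelPrime S S' → aeval ξ S = 0 → aeval ξ S' = 0 →
  Algebra.trdeg k (IntermediateField.adjoin k (Set.range ξ)) ≤ ((N - 2 : ℕ) : Cardinal)

/-- an invariant closed set in two hypersurfaces is a curve -/
def T_CRV : Prop := ∀ (k : Type) [Field k] [IsAlgClosed k] [CharZero k] (G : Tup 3 k)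
  (I : Ideal (Po 3 k)) (F : Type) [Field F] [Algebra k F] (π : Po 3 k →ₐ[k] F)
  (τ' : F →ₐ[k] F), VM G I π τ' →
  (∃ S ∈ I, ∃ S' ∈ I, S ≠ 0 ∧ S' ≠ 0 ∧ IsRelPrime S S') → (∀ c : k, X 0 - C c ∉ I) →
  Cv k π.range

/-- a curve of bounded degree is contained in a surface of bounded degree -/
def T_BSF : Prop := ∀ D : ℕ, ∃ q : ℕ, ∀ (k F : Type) [Field k] [IsAlgClosed k] [CharZero k]
  [Field F] [Algebra k F] (π : Po 3 k →ₐ[k] F), Cv k π.range →
  (∀ s : Fin 3 → k, dg k {lc s (fun i => π (X i))} ≤ D) →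
  ∃ S : Po 3 k, S ≠ 0 ∧ π S = 0 ∧ S.totalDegree ≤ q

/-- the degree of a curve is the maximal degree of a linear form -/
def T_DMX : Prop := ∀ (k F : Type) [Field k] [IsAlgClosed k] [CharZero k] [Field F] [Algebra k F]
  (R : Subalgebra k F) (x : Fin 3 → F), Cv k R → (∀ i, x i ∈ R) →
  (∃ i, Transcendental k (x i)) →
  ∃ s' : Fin 3 → k, (∀ s : Fin 3 → k, dg k {lc s x} ≤ dg k {lc s' x}) ∧ 1 ≤ dg k {lc s' x}

/-- bound for the degree of a curve -/
def T_DEL : Prop := ∀ (k F : Type) [Field k] [IsAlgClosed k] [CharZero k] [Field F] [Algebra k F]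
  (R : Subalgebra k F) (τ : F →ₐ[k] F) (x : Fin 3 → F) (J : F) (E n a b δ D : ℕ)
  (i₀ j₀ : Fin 3) (s' : Fin 3 → k) (Φ : MvPolynomial (Fin 4) k), Cv k R →
  (∀ r ∈ R, τ r ∈ R) → deh (τ : F →+* F) = E → 1 ≤ E → (∀ i, x i ∈ R) → J ∈ R →
  aeval ![x i₀, x j₀, J, τ^[n] (lc s' x)] Φ = 0 →
  (∃ c : k, aeval ![x i₀, x j₀, J, algebraMap k F c] Φ ≠ 0) →
  degreeOf 0 Φ ≤ a → degreeOf 1 Φ ≤ a → degreeOf 2 Φ ≤ b →
  (∀ s : Fin 3 → k, dg k {lc s x} ≤ δ) → dg k {lc s' x} = δ → 1 ≤ δ → dg k {J} ≤ D →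
  E ^ n * δ ≤ 2 * a * δ + b * D

/-! ## Algebraic relations -/

/-- existence of a relation between two functions -/
def T_REL : Prop := ∀ (k F : Type) [Field k] [Field F] [Algebra k F] (a b : F),
  Transcendental k a → IsAlgebraic (IntermediateField.adjoin k {a}) b →
  ∃ Ξ : Polynomial (Polynomial k), Irreducible Ξ ∧ evX a b Ξ = 0

/-- the degrees of the relation between two functions -/
def T_REM : Prop := ∀ (k F : Type) [Field k] [Field F] [Algebra k F] (a b : F)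
  (Ξ : Polynomial (Polynomial k)), Transcendental k a → Transcendental k b → Irreducible Ξ →
  evX a b Ξ = 0 → dg k {a} = Ξ.natDegree * dg k {a, b} ∧ dg k {b} = dgX Ξ * dg k {a, b}

/-- the relation between `J` and its iterates -/
def T_B1P : Prop := ∀ (N : ℕ) (k : Type) [Field k] (G : Tup N k) (I : Ideal (Po N k)) (F : Type)
  [Field F] [Algebra k F] (π : Po N k →ₐ[k] F) (τ' : F →ₐ[k] F) (E : ℕ) (J : Po N k) (n : ℕ)
  (Ξ : Polynomial (Polynomial k)), VM G I π τ' → deh (τ' : F →+* F) = E → 1 ≤ E →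
  Transcendental k (π J) → 1 ≤ dg k {π J} → Irreducible Ξ →
  evX J ((aeval G : Po N k →ₐ[k] Po N k)^[n] J) Ξ = 0 → dgX Ξ = E ^ n * Ξ.natDegree

/-- the degrees do not change over a field generated by independent functions -/
def T_IRR : Prop := ∀ (k K : Type) [Field k] [Field K] [Algebra k K] (l l' a b : K)
  (Ξ : Polynomial (Polynomial k)), AlgebraicIndependent k ![l, l', a] → Transcendental k b →
  Irreducible Ξ → evX a b Ξ = 0 →
  dg k {l, l', a} = Ξ.natDegree * dg k {l, l', a, b} ∧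
    dg k {l, l', b} = dgX Ξ * dg k {l, l', a, b}

/-- the functions `l`, `l' ∘ G ^ n`, `J` generate a large field -/
def T_B2P : Prop := ∀ (k : Type) [Field k] [CharZero k] (τ : K3 k →ₐ[k] K3 k) (J : Po 3 k)
  (n D M : ℕ), (∀ c : k, J ≠ C c) → 1 ≤ D →
  IsAlgebraic (IntermediateField.adjoin k {fr J}) (τ^[n] (fr J)) →
  (∀ Ξ : Polynomial (Polynomial k), Irreducible Ξ → evX (fr J) (τ^[n] (fr J)) Ξ = 0 →
    dgX Ξ = D * Ξ.natDegree) →
  (∀ s s' s'' : Fin 3 → k, dg k {lc s (xx k), lc s' (ph τ n), lc s'' (ph τ n)} ≤ M) →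
  ∀ s s' : Fin 3 → k, D * dg k {lc s (xx k), lc s' (ph τ n), fr J} ≤ J.totalDegree * M

/-- the relation between four functions -/
def T_RL4 : Prop := ∀ (k K : Type) [Field k] [Field K] [Algebra k K] (a : Fin 4 → K),
  Algebra.trdeg k K = 3 → (⊤ : IntermediateField k K).FG →
  AlgebraicIndependent k ![a 0, a 1, a 2] → ∃ Φ : MvPolynomial (Fin 4) k, Φ ≠ 0 ∧
    aeval a Φ = 0 ∧ ∀ i, degreeOf i Φ ≤ dg k (a '' {j | j ≠ i})

/-- a nonconstant polynomial is independent of two of the coordinates -/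
def T_CIJ : Prop := ∀ (k : Type) [Field k] (J : Po 3 k), (∀ c : k, J ≠ C c) →
  ∃ i j : Fin 3, AlgebraicIndependent k ![(X i : Po 3 k), X j, J]

/-- evaluation of a polynomial in two variables -/
def T_EVD : Prop := ∀ (N : ℕ) (k : Type) [Field k] (P Q : Po N k)
  (Ξ : Polynomial (Polynomial k)), Ξ ≠ 0 →
  (evX P Q Ξ).totalDegree ≤ dgX Ξ * P.totalDegree + Ξ.natDegree * Q.totalDegree ∧
    (AlgebraicIndependent k ![fr P, fr Q] → evX P Q Ξ ≠ 0)

/-- evaluation of a polynomial in four variables -/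
def T_EV4 : Prop := ∀ (k : Type) [Field k] [Infinite k] (J : Po 3 k) (i j : Fin 3)
  (Φ : MvPolynomial (Fin 4) k), AlgebraicIndependent k ![(X i : Po 3 k), X j, J] → Φ ≠ 0 →
  ∃ c : k, aeval ![(X i : Po 3 k), X j, J, C c] Φ ≠ 0 ∧
    (aeval ![(X i : Po 3 k), X j, J, C c] Φ).totalDegree ≤
      degreeOf 0 Φ + degreeOf 1 Φ + degreeOf 2 Φ * J.totalDegree

/-- iteration of an algebraic dependence -/
def T_ALN : Prop := ∀ (k K : Type) [Field k] [Field K] [Algebra k K] (τ : K →ₐ[k] K) (a : K),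
  IsAlgebraic (IntermediateField.adjoin k {a}) (τ a) →
  ∀ n : ℕ, IsAlgebraic (IntermediateField.adjoin k {a}) (τ^[n] a)

/-- dependent or independent -/
def T_DIC : Prop := ∀ (k K : Type) [Field k] [Field K] [Algebra k K] (a b : K),
  Transcendental k a →
  AlgebraicIndependent k ![a, b] ∨ IsAlgebraic (IntermediateField.adjoin k {a}) b

/-! ## Conjugation -/

/-- the degree of the field extension and the degree of a primitive element -/
def T_DGN : Prop := ∀ (N : ℕ) (k : Type) [Field k] (G : Tup N k) (τ : KN N k →ₐ[k] KN N k)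
  (θ : Po N k) (Φ : Polynomial (Po N k)) (Δ : Po N k) (R : Fin N → Polynomial (Po N k)),
  Function.Injective (aeval G : Po N k →ₐ[k] Po N k) → Ext G τ → Prim G θ Φ Δ R →
  deh (τ : KN N k →+* KN N k) = Φ.natDegree

/-- the number of preimages is at most the degree of a primitive element -/
def T_UPB : Prop := ∀ (N : ℕ) (k : Type) [Field k] (G : Tup N k) (θ : Po N k)
  (Φ : Polynomial (Po N k)) (Δ : Po N k) (R : Fin N → Polynomial (Po N k)), Prim G θ Φ Δ R →
  ∃ c : Po N k, c ≠ 0 ∧ ∀ y : Fin N → k, eval y c ≠ 0 → ∀ S : Finset (Fin N → k),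
    (∀ x ∈ S, pmap G x = y) → S.card ≤ Φ.natDegree

/-- `G` is conjugate to an iterate of `f` by the affine map `z ↦ a + t z` -/
def Cj {N : ℕ} {k : Type} [Field k] (f G : Tup N k) (K₀ : ℕ) (a : Fin N → k) (t : k) : Prop :=
  t ≠ 0 ∧ 1 ≤ K₀ ∧
    ∀ z : Fin N → k, (pmap f)^[K₀] (fun i => a i + t * z i) = fun i => a i + t * pmap G z i

/-- the degree of a conjugate of an iterate -/
def T_DGC : Prop := ∀ (N : ℕ) (k : Type) [Field k] [Infinite k] (f G : Tup N k) (K₀ : ℕ)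
  (a : Fin N → k) (t : k) (τ₀ τ : KN N k →ₐ[k] KN N k), Cj f G K₀ a t → Ext f τ₀ → Ext G τ →
  1 ≤ deh (τ₀ : KN N k →+* KN N k) →
  deh (τ : KN N k →+* KN N k) = deh (τ₀ : KN N k →+* KN N k) ^ K₀

/-- the growth of a conjugate of an iterate -/
def T_GRB : Prop := ∀ (k : Type) [Field k] [Infinite k] (f G : Tup 3 k) (K₀ : ℕ)
  (a : Fin 3 → k) (t : k) (τ₀ τ : K3 k →ₐ[k] K3 k) (n M : ℕ), Cj f G K₀ a t → Ext f τ₀ →
  Ext G τ →
  (∀ s s' s'' : Fin 3 → k, dg k {lc s (xx k), lc s' (ph τ₀ (K₀ * n)), lc s'' (ph τ₀ (K₀ * n))} ≤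
    M) → ∀ s s' s'' : Fin 3 → k, dg k {lc s (xx k), lc s' (ph τ n), lc s'' (ph τ n)} ≤ M

/-- the jacobian of a conjugate of an iterate -/
def T_JCC : Prop := ∀ (N : ℕ) (k : Type) [Field k] [Infinite k] (f G : Tup N k) (K₀ : ℕ)
  (a : Fin N → k) (t : k), Cj f G K₀ a t →
  Function.Injective (aeval f : Po N k →ₐ[k] Po N k) → (∀ c : k, jac f ≠ C c) →
  ∀ c : k, jac G ≠ C c

/-- the fibres of a conjugate of an iterate -/
def T_FFC : Prop := ∀ (N : ℕ) (k : Type) [Field k] (f G : Tup N k) (K₀ : ℕ)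
  (a : Fin N → k) (t : k), Cj f G K₀ a t → (∀ y : Fin N → k, {x | pmap f x = y}.Finite) →
  ∀ y : Fin N → k, {x | pmap G x = y}.Finite

end Pool.Agent.H55.FFM
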