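import Pool.Agent.H51.FFM.REM

/-!
# Maps of affine 3-space with finite fibres: degrees over a field generated by independent
functions
-/

open Pool.Agent.H55.FFM
open Polynomial (Bivariate.swap)
open Pool.Agent.H51.FFM (rem_swap_natDegree rem_evX_swap)

namespace Pool.Agent.H55.FFM

/-- the minimal polynomial of `b` over `k(a)` -/
theorem irr_min {k F : Type} [Field k] [Field F] [Algebra k F] (a b : F)
    (Ξ : Polynomial (Polynomial k)) (ha : Transcendental k a) (hirr : Irreducible Ξ)
    (hev : evX a b Ξ = 0) : IsIntegral (IntermediateField.adjoin k {a}) b ∧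
      (minpoly (IntermediateField.adjoin k {a}) b).natDegree = Ξ.natDegree := by
  set K1 := IntermediateField.adjoin k {a} with hK1
  have hmem : ∀ p : Polynomial k, Polynomial.aeval a p ∈ K1 := by
    intro p
    rw [hK1, IntermediateField.mem_adjoin_simple_iff]
    exact ⟨p, 1, by rw [map_one, div_one]⟩
  set φ : Polynomial k →+* K1 :=
    (Polynomial.aeval (R := k) (⟨a, by simpa using hmem Polynomial.X⟩ : K1)).toRingHom with hφ
  have hφa : ∀ p, ((φ p : K1) : F) = Polynomial.aeval a p := by
    intro p
    have h1 := Polynomial.aeval_algHom_apply K1.val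
      (⟨a, by simpa using hmem Polynomial.X⟩ : K1) p
    exact h1.symm
  have hφinj : Function.Injective φ := by
    rw [injective_iff_map_eq_zero]
    intro p hp
    have h1 := hφa p
    rw [hp] at h1
    by_contra hne
    exact ha ⟨p, hne, h1.symm⟩
  let _ : Algebra (Polynomial k) K1 := φ.toAlgebra
  have hfaith : FaithfulSMul (Polynomial k) K1 :=
    (faithfulSMul_iff_algebraMap_injective (Polynomial k) K1).2 hφinj
  have hfrac : IsFractionRing (Polynomial k) K1 := by
    refine IsFractionRing.of_field (Polynomial k) K1 fun z => ?_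
    obtain ⟨r, s, hrs⟩ := (IntermediateField.mem_adjoin_simple_iff (F := k) (z : F)).1 z.2
    refine ⟨r, s, Subtype.ext ?_⟩
    rw [hrs]
    change _ = ((φ r : K1) : F) / ((φ s : K1) : F)
    rw [hφa, hφa]
  have hnd : Ξ.natDegree ≠ 0 := by
    intro h0
    obtain ⟨p, hp⟩ := Polynomial.natDegree_eq_zero.1 h0
    rw [← hp] at hev
    unfold evX at hev
    rw [Polynomial.eval₂_C] at hev
    have hp0 : p = 0 := by
      by_contra hne
      exact ha ⟨p, hne, hev⟩
    rw [hp0, Polynomial.C_0] at hp
    exact hirr.ne_zero hp.symm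
  have hprim : Ξ.IsPrimitive := hirr.isPrimitive hnd
  have hirr' : Irreducible (Ξ.map (algebraMap (Polynomial k) K1)) :=
    (hprim.irreducible_iff_irreducible_map_fraction_map (K := K1)).1 hirr
  have hroot : Polynomial.aeval b (Ξ.map (algebraMap (Polynomial k) K1)) = 0 := by
    rw [Polynomial.aeval_def, Polynomial.eval₂_map]
    rw [← hev]
    unfold evX
    congr 1
    refine RingHom.ext fun p => ?_
    exact hφa p
  have hmin := minpoly.eq_of_irreducible hirr' hroot
  have hint : IsIntegral K1 b := by
    rw [← isAlgebraic_iff_isIntegral]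
    exact ⟨_, hirr'.ne_zero, hroot⟩
  refine ⟨hint, ?_⟩
  have hinj' : Function.Injective (algebraMap (Polynomial k) K1) := hφinj
  rw [← hmin, Polynomial.natDegree_mul_C, Polynomial.natDegree_map_eq_of_injective hinj']
  have h1 := Polynomial.leadingCoeff_ne_zero.2 hirr'.ne_zero
  exact inv_ne_zero h1

open scoped IntermediateField.algebraAdjoinAdjoin in
/-- independence over a field which contains `k(a)` -/
theorem irr_ext {k K : Type} [Field k] [Field K] [Algebra k K] (l l' a b : K)
    (h : AlgebraicIndependent k ![l, l', a])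
    (hb : IsAlgebraic (IntermediateField.adjoin k {a}) b) :
    AlgebraicIndependent (IntermediateField.adjoin k {a, b}) ![l, l'] := by
  have h1 : AlgebraicIndependent (Algebra.adjoin k ({a} : Set K)) ![l, l'] := by
    have h2 := h.adjoin_of_disjoint (s := {2}) (t := {0, 1}) (by simp)
    have h3 : (![l, l', a] '' {2} : Set K) = {a} := by simp
    rw [h3] at h2
    have h4 := h2.comp (![⟨0, by simp⟩, ⟨1, by simp⟩] : Fin 2 → ({0, 1} : Set (Fin 3))) (by
      intro i j hij
      fin_cases i <;> fin_cases j <;> simp_all)
    have h5 : (fun i : ({0, 1} : Set (Fin 3)) => ![l, l', a] i) ∘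
        (![⟨0, by simp⟩, ⟨1, by simp⟩] : Fin 2 → ({0, 1} : Set (Fin 3))) = ![l, l'] := by
      funext i
      fin_cases i <;> rfl
    rwa [h5] at h4
  have h2 := h1.subalgebraAlgebraicClosure
  have h3 : ∀ x ∈ IntermediateField.adjoin k {a, b},
      IsAlgebraic (Algebra.adjoin k ({a} : Set K)) x := by
    intro x hx
    rw [IsFractionRing.isAlgebraic_iff (Algebra.adjoin k ({a} : Set K))
      (IntermediateField.adjoin k ({a} : Set K)) K]
    have h4 : IntermediateField.adjoin k {a, b} ≤
        (algebraicClosure (IntermediateField.adjoin k ({a} : Set K)) K).restrictScalars k := by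
      rw [IntermediateField.adjoin_le_iff]
      rintro y (rfl | rfl)
      · rw [SetLike.mem_coe, IntermediateField.mem_restrictScalars, mem_algebraicClosure_iff]
        exact isAlgebraic_algebraMap (⟨y, IntermediateField.mem_adjoin_simple_self k y⟩ :
          IntermediateField.adjoin k ({y} : Set K))
      · rw [SetLike.mem_coe, IntermediateField.mem_restrictScalars, mem_algebraicClosure_iff]
        exact hb
    have h5 := h4 hx
    rwa [IntermediateField.mem_restrictScalars, mem_algebraicClosure_iff] at h5
  let f : IntermediateField.adjoin k {a, b} →+*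
      Subalgebra.algebraicClosure (Algebra.adjoin k ({a} : Set K)) K :=
    { toFun := fun x => ⟨x.1, h3 x.1 x.2⟩
      map_one' := rfl
      map_mul' := fun _ _ => rfl
      map_zero' := rfl
      map_add' := fun _ _ => rfl }
  have hf : Function.Injective f := by
    intro x y hxy
    have h4 : ((f x : Subalgebra.algebraicClosure (Algebra.adjoin k ({a} : Set K)) K) : K) =
        (f y : Subalgebra.algebraicClosure (Algebra.adjoin k ({a} : Set K)) K) := by rw [hxy]
    exact Subtype.ext h4
  exact AlgebraicIndependent.of_ringHom_of_comp_eq (x := ![l, l']) f (RingHom.id K) h2 hf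
    (by ext z; rfl)

/-- independence of three elements -/
theorem irr_three {k K : Type} [Field k] [Field K] [Algebra k K] (l l' b : K)
    (L : IntermediateField k K) (hbL : b ∈ L) (hb : Transcendental k b)
    (h : AlgebraicIndependent L ![l, l']) : AlgebraicIndependent k ![l, l', b] := by
  have h1 : AlgebraicIndependent k (![b] : Fin 1 → K) :=
    (algebraicIndependent_iff_transcendental (R := k) (x := b)).2 hb
  have hle : Algebra.adjoin k (Set.range (![b] : Fin 1 → K)) ≤ L.toSubalgebra := by
    rw [Algebra.adjoin_le_iff]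
    rintro x ⟨i, rfl⟩
    fin_cases i
    exact hbL
  have h2 : AlgebraicIndependent (Algebra.adjoin k (Set.range (![b] : Fin 1 → K))) ![l, l'] :=
    AlgebraicIndependent.of_ringHom_of_comp_eq (x := ![l, l'])
      (Subalgebra.inclusion hle).toRingHom (RingHom.id K) h (Subalgebra.inclusion_injective hle)
      (by ext z; rfl)
  have h3 := (AlgebraicIndependent.sumElim_iff.2 ⟨h1, h2⟩).comp
    (![Sum.inl 0, Sum.inl 1, Sum.inr 0] : Fin 3 → Fin 2 ⊕ Fin 1) (by
      intro i j hij
      fin_cases i <;> fin_cases j <;> simp_all)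
  have h4 : Sum.elim ![l, l'] ![b] ∘ (![Sum.inl 0, Sum.inl 1, Sum.inr 0] :
      Fin 3 → Fin 2 ⊕ Fin 1) = ![l, l', b] := by
    funext i
    fin_cases i <;> rfl
  rwa [h4] at h3

open scoped IntermediateField.algebraAdjoinAdjoin in
/-- the degree of `b` does not change -/
theorem irr_deg {k K : Type} [Field k] [Field K] [Algebra k K] (l l' b : K)
    (K1 : IntermediateField k K) (L : IntermediateField k K) (hK1 : K1 ≤ L) (hbL : b ∈ L)
    (hb : IsIntegral K1 b) (h : AlgebraicIndependent L ![l, l']) :
    (minpoly (IntermediateField.adjoin K1 {l, l'}) b).natDegree = (minpoly K1 b).natDegree := by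
  apply le_antisymm
  · have h1 := minpoly.dvd_map_of_isScalarTower K1 (IntermediateField.adjoin K1 {l, l'}) b
    have h2 := Polynomial.natDegree_le_of_dvd h1 (by
      exact (Polynomial.map_ne_zero_iff
        (algebraMap K1 (IntermediateField.adjoin K1 {l, l'})).injective).2 (minpoly.ne_zero hb))
    rwa [Polynomial.natDegree_map] at h2
  set d := (minpoly K1 b).natDegree with hd
  have hli : LinearIndependent K1 (fun i : Fin d => b ^ (i : ℕ)) := linearIndependent_pow b
  have hA : LinearIndependent (Algebra.adjoin K1 ({l, l'} : Set K))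
      (fun i : Fin d => b ^ (i : ℕ)) := by
    rw [Fintype.linearIndependent_iff]
    intro g hg
    have hq0 : ∀ y ∈ Algebra.adjoin K1 ({l, l'} : Set K), ∃ q : MvPolynomial (Fin 2) K1,
        MvPolynomial.aeval ![l, l'] q = y := by
      intro y h1
      have h2 : ({l, l'} : Set K) = Set.range ![l, l'] := by
        rw [Matrix.range_cons, Matrix.range_cons, Matrix.range_empty, Set.union_empty]
        rfl
      rw [h2, Algebra.adjoin_range_eq_range_aeval] at h1
      exact h1
    have hq : ∀ i, ∃ q : MvPolynomial (Fin 2) K1, MvPolynomial.aeval ![l, l'] q = (g i : K) :=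
      fun i => hq0 _ (g i).2
    choose q hq using hq
    let j : K1 →+* L := (IntermediateField.inclusion hK1).toRingHom
    have hmap : ∀ P : MvPolynomial (Fin 2) K1,
        MvPolynomial.aeval ![l, l'] (MvPolynomial.map j P) = MvPolynomial.aeval ![l, l'] P := by
      intro P
      rw [MvPolynomial.aeval_def, MvPolynomial.eval₂_map, MvPolynomial.aeval_def]
      rfl
    set Q : MvPolynomial (Fin 2) L :=
      ∑ i : Fin d, MvPolynomial.C (⟨b, hbL⟩ ^ (i : ℕ) : L) * MvPolynomial.map j (q i) with hQ
    have hQ0 : Q = 0 := by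
      apply (injective_iff_map_eq_zero _).1 h
      rw [hQ, map_sum, ← hg]
      refine Finset.sum_congr rfl fun i _ => ?_
      rw [map_mul, hmap, hq, MvPolynomial.algHom_C, map_pow, mul_comm]
      rfl
    have hcoef : ∀ (i : Fin d) (m : Fin 2 →₀ ℕ), MvPolynomial.coeff m (q i) = 0 := by
      intro i m
      have h1 := congrArg (MvPolynomial.coeff m) hQ0
      rw [hQ, MvPolynomial.coeff_sum, MvPolynomial.coeff_zero] at h1
      simp only [MvPolynomial.coeff_C_mul, MvPolynomial.coeff_map] at h1
      have h2 : ∑ i : Fin d, MvPolynomial.coeff m (q i) • b ^ (i : ℕ) = 0 := by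
        have h3 := congrArg L.val h1
        rw [map_zero, map_sum] at h3
        rw [← h3]
        refine Finset.sum_congr rfl fun i _ => ?_
        rw [map_mul, map_pow, mul_comm]
        rfl
      exact Fintype.linearIndependent_iff.1 hli (fun i => MvPolynomial.coeff m (q i)) h2 i
    intro i
    apply Subtype.ext
    rw [← hq i]
    have h3 : q i = 0 := by
      ext m
      rw [hcoef i m, MvPolynomial.coeff_zero]
    rw [h3, map_zero]
    rfl
  have hK : LinearIndependent (IntermediateField.adjoin K1 ({l, l'} : Set K))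
      (fun i : Fin d => b ^ (i : ℕ)) :=
    (LinearIndependent.iff_fractionRing (Algebra.adjoin K1 ({l, l'} : Set K))
      (IntermediateField.adjoin K1 ({l, l'} : Set K))).1 hA
  by_contra hlt
  push Not at hlt
  set m := minpoly (IntermediateField.adjoin K1 ({l, l'} : Set K)) b with hm
  have hmon : m.Monic := minpoly.monic hb.tower_top
  have h1 : ∑ i : Fin d, m.coeff i • b ^ (i : ℕ) = 0 := by
    have h2 : Polynomial.aeval b m = 0 := minpoly.aeval _ b
    rw [Polynomial.aeval_eq_sum_range' hlt] at h2
    rw [← h2, Fin.sum_univ_eq_sum_range (fun i => m.coeff i • b ^ i) d]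
  have h2 := Fintype.linearIndependent_iff.1 hK (fun i => m.coeff i) h1 ⟨m.natDegree, hlt⟩
  have h3 : m.coeff m.natDegree = 1 := hmon.coeff_natDegree
  exact one_ne_zero (h3.symm.trans h2)

theorem irr_part {k K : Type} [Field k] [Field K] [Algebra k K] (l l' a b : K)
    (Ξ : Polynomial (Polynomial k)) (ha : Transcendental k a) (hirr : Irreducible Ξ)
    (hev : evX a b Ξ = 0)
    (h : AlgebraicIndependent (IntermediateField.adjoin k {a, b}) ![l, l']) :
    dg k {l, l', a} = Ξ.natDegree * dg k {l, l', a, b} := by
  obtain ⟨hint, hdeg⟩ := irr_min a b Ξ ha hirr hev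
  set K1 := IntermediateField.adjoin k ({a} : Set K) with hK1
  set K2 := IntermediateField.adjoin K1 ({l, l'} : Set K) with hK2
  have h1 : K1 ≤ IntermediateField.adjoin k {a, b} :=
    IntermediateField.adjoin.mono k _ _ (by simp)
  have h2 : b ∈ IntermediateField.adjoin k {a, b} :=
    IntermediateField.subset_adjoin k _ (by simp)
  have h3 := irr_deg l l' b K1 (IntermediateField.adjoin k {a, b}) h1 h2 hint h
  have hint2 : IsIntegral K2 b := hint.tower_top
  have hfin := IntermediateField.adjoin.finrank hint2
  rw [h3, hdeg] at hfin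
  have htow := Module.finrank_mul_finrank K2 (IntermediateField.adjoin K2 {b}) K
  rw [hfin] at htow
  have h4 : Module.finrank K2 K = dg k {l, l', a} := by
    have h5 := IntermediateField.adjoin_adjoin_left k ({a} : Set K) ({l, l'} : Set K)
    have h6 : ({a} : Set K) ∪ {l, l'} = {l, l', a} := by
      ext x
      simp only [Set.mem_union, Set.mem_insert_iff, Set.mem_singleton_iff]
      tauto
    rw [h6] at h5
    unfold dg
    rw [← h5]
    rfl
  have h5 : Module.finrank (IntermediateField.adjoin K2 {b}) K = dg k {l, l', a, b} := by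
    have h6 := IntermediateField.adjoin_adjoin_left K1 ({l, l'} : Set K) ({b} : Set K)
    have h7 := IntermediateField.adjoin_adjoin_left k ({a} : Set K)
      (({l, l'} : Set K) ∪ ({b} : Set K))
    have h8 : ({a} : Set K) ∪ (({l, l'} : Set K) ∪ ({b} : Set K)) = {l, l', a, b} := by
      ext x
      simp only [Set.mem_union, Set.mem_insert_iff, Set.mem_singleton_iff]
      tauto
    rw [h8, ← h6] at h7
    unfold dg
    rw [← h7]
    rfl
  rw [h4, h5] at htow
  exact htow.symm

theorem pf_IRR : T_IRR := by
  intro k K _ _ _ l l' a b Ξ h hb hirr hev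
  have ha : Transcendental k a := h.transcendental 2
  obtain ⟨hint, -⟩ := irr_min a b Ξ ha hirr hev
  have h1 := irr_ext l l' a b h hint.isAlgebraic
  refine ⟨irr_part l l' a b Ξ ha hirr hev h1, ?_⟩
  have h2 : Irreducible (Polynomial.Bivariate.swap Ξ) :=
    (MulEquiv.irreducible_iff (Polynomial.Bivariate.swap (R := k)).toMulEquiv).2 hirr
  have h3 : evX b a (Polynomial.Bivariate.swap Ξ) = 0 := by rw [rem_evX_swap, hev]
  have h4 := irr_part l l' b a (Polynomial.Bivariate.swap Ξ) hb h2 h3
    (by rw [Set.pair_comm b a]; exact h1)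
  rw [rem_swap_natDegree, Set.pair_comm b a] at h4
  exact h4

end Pool.Agent.H55.FFM
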