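import Pool.Agent.H55.FFM.CaseB
import Pool.Agent.H8.HIT.B

/-!
# Maps of affine 3-space with finite fibres: the main theorem
-/

open MvPolynomial
open Pool.Agent.H12.ZD (pmap v O Res DenseOrbit NoInv)
open Pool.Agent.H18.HIT
open Pool.Agent.H8.TD (lc Wsp K3 xx ph)
open Pool.Agent.H8.HIT (setup dense_of_conj noInv_conj lam cov_pos_inj cO_intCast)

namespace Pool.Agent.H55.FFM

/-- all the good points, in every residue class -/
def Sup0 (G : Tup 3 Qb) (E : ℕ) (J : Po 3 Qb) : Prop :=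
  ∀ (c : Po 3 Qb) (m : ℕ) (y : Fin 3 → ℤ), c ≠ 0 → 1 ≤ m →
    ∃ z : Fin 3 → ℤ, (∀ i, (m : ℤ) ∣ z i - y i) ∧ eval (cZ z) c ≠ 0 ∧
    ∃ (F : Type) (_ : Field F) (_ : Algebra Qb F) (π : Po 3 Qb →ₐ[Qb] F) (τ' : F →ₐ[Qb] F),
      GP G (van G (cZ z)) E J F π τ'

/-- the second alternative does not occur for general points -/
theorem sup_of_sup0 (hRNK : T_RNK) (hRTD : T_RTD) (hWPL : T_WPL) (hUNI : T_UNI)
    {G : Tup 3 Qb} (hinj : Function.Injective (aeval G : Po 3 Qb →ₐ[Qb] Po 3 Qb))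
    (hinv : NoInv G) {E : ℕ} (hE : 2 ≤ E) {J : Po 3 Qb} (hJ : ∀ c : Qb, J ≠ C c)
    (h0 : Sup0 G E J) : Sup G E J := by
  have hJ0 : J ≠ 0 := by
    intro h
    exact hJ 0 (by rw [h, C_0])
  -- a consequence of the second alternative
  have key : ∀ (z : Fin 3 → ℤ) (F : Type) (_ : Field F) (_ : Algebra Qb F)
      (π : Po 3 Qb →ₐ[Qb] F) (τ' : F →ₐ[Qb] F), GP G (van G (cZ z)) E J F π τ' →
      eval (cZ z) J ≠ 0 →
      dg Qb {π J} ≤ E - 1 ∨ ((∃ B : Po 3 Qb, J * B - 1 ∈ van G (cZ z)) ∧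
        ∃ γ : Qb, aeval G (aeval G J) - C γ * J ^ (E ^ 2) ∈ van G (cZ z)) := by
    intro z F _ _ π τ' hgp hz
    rcases hgp.alt with h1 | ⟨⟨B, hB⟩, γ, hγ⟩
    · exact Or.inl h1
    · refine Or.inr ⟨⟨B, ?_⟩, γ, ?_⟩
      · rw [← hgp.vm.ker, map_sub, map_mul, map_one]
        have h2 : π J ≠ 0 := fun h => not_mem_van hz ((hgp.vm.ker J).1 h)
        have h3 : π B = (π J)⁻¹ := hB
        rw [h3, mul_inv_cancel₀ h2, sub_self]
      · rw [← hgp.vm.ker, map_sub, map_mul, map_pow, ← hgp.vm.com, ← hgp.vm.com, hγ,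
          ← MvPolynomial.algebraMap_eq, AlgHom.commutes, sub_self]
  by_cases hU : ∃ γ : Qb, aeval G (aeval G J) = C γ * J ^ (E ^ 2)
  · obtain ⟨γ, hγ⟩ := hU
    classical
    set A : Finset Qb := insert γ (J.support.image (fun m => coeff m J) ∪
      Finset.univ.biUnion fun i => (G i).support.image fun m => coeff m (G i)) with hA
    obtain ⟨p, σ, y, hpA, hpy⟩ := hWPL 3 J A hJ
    intro c hc
    obtain ⟨z, hzy, hz, F, i1, i2, π, τ', hgp⟩ := h0 (c * J) p y (mul_ne_zero hc hJ0)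
      p.2.one_lt.le
    rw [map_mul] at hz
    refine ⟨cZ z, left_ne_zero_of_mul hz, F, i1, i2, π, τ', hgp.vm, hgp.cv, hgp.deg, ?_⟩
    rcases key z F i1 i2 π τ' hgp (right_ne_zero_of_mul hz) with h1 | ⟨⟨B, hB⟩, -⟩
    · exact h1
    · exfalso
      refine hUNI 3 G J B γ E p σ y z hE ?_ ?_ ?_ hpy hzy hγ hB
      · intro i m
        by_cases hm : coeff m (G i) = 0
        · rw [hm, map_zero, Pool.Agent.H12.ZD.v_zero]
          exact zero_le_one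
        · apply hpA
          rw [hA, Finset.mem_insert, Finset.mem_union, Finset.mem_biUnion]
          exact Or.inr (Or.inr ⟨i, Finset.mem_univ i, Finset.mem_image_of_mem _
            (mem_support_iff.2 hm)⟩)
      · intro m
        by_cases hm : coeff m J = 0
        · rw [hm, map_zero, Pool.Agent.H12.ZD.v_zero]
          exact zero_le_one
        · apply hpA
          rw [hA, Finset.mem_insert, Finset.mem_union]
          exact Or.inr (Or.inl (Finset.mem_image_of_mem _ (mem_support_iff.2 hm)))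
      · exact hpA γ (Finset.mem_insert_self _ _)
  · obtain ⟨c', hc', h'⟩ := rnk_deg hRNK hinj hinv hRTD
      (max (aeval G (aeval G J) : Po 3 Qb).totalDegree (J ^ (E ^ 2)).totalDegree)
    intro c hc
    obtain ⟨z, hzy, hz, F, i1, i2, π, τ', hgp⟩ := h0 (c * (J * c')) 1 0
      (mul_ne_zero hc (mul_ne_zero hJ0 hc')) le_rfl
    rw [map_mul, map_mul] at hz
    refine ⟨cZ z, left_ne_zero_of_mul hz, F, i1, i2, π, τ', hgp.vm, hgp.cv, hgp.deg, ?_⟩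
    rcases key z F i1 i2 π τ' hgp (left_ne_zero_of_mul (right_ne_zero_of_mul hz)) with
      h1 | ⟨-, γ, hγ⟩
    · exact h1
    · exfalso
      apply hU
      refine ⟨γ, sub_eq_zero.1 (h' (cZ z) (right_ne_zero_of_mul (right_ne_zero_of_mul hz)) _
        ?_ hγ)⟩
      refine (totalDegree_sub _ _).trans (max_le_max le_rfl ?_)
      refine (totalDegree_mul _ _).trans ?_
      rw [totalDegree_C, zero_add]

/-- the library facts and the rows -/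
structure Al : Prop where
  inc : T_INC
  prm : Pool.Agent.H18.HIT.T_PRM
  pel : T_PEL
  hit : T_HIT
  pre : T_PRE
  str : T_STR
  avo : T_AVO
  igc : T_IGC
  lyo : T_LYO
  hyp : T_HYP
  can : T_CAN
  nit : T_NIT
  cve : T_CVE
  rtd : T_RTD
  exx : T_EXX
  vmx : T_VMX
  rdt : T_RDT
  jtr : T_JTR
  itg : T_ITG
  ron : T_RON
  bet : T_BET
  crv : T_CRV
  one : T_ONE
  zmt : T_ZMT
  aut : T_AUT
  rnk : T_RNK
  gdp : T_GDP
  wpl : T_WPL
  uni : T_UNI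
  rel : T_REL
  rem : T_REM
  pbk : T_PBK
  deh : T_DEH
  evd : T_EVD
  b1p : T_B1P
  b2p : T_B2P
  aln : T_ALN
  dic : T_DIC
  rl4 : T_RL4
  cij : T_CIJ
  ev4 : T_EV4
  dmx : T_DMX
  del : T_DEL
  bsf : T_BSF
  bbd : T_BBD
  dgn : T_DGN
  dgc : T_DGC
  grb : T_GRB
  jcc : T_JCC
  ffc : T_FFC

/-- growth of the intersection numbers of the iterates -/
def Gr (f : Tup 3 Qb) (e : ℕ) : Prop :=
  ∃ M₀ : ℕ, ∀ n ≥ M₀, ∀ s s' s'' : Fin 3 → Qb,
    (dg Qb {lc s (xx Qb), lc s' (fun i => fr (it f n i)), lc s'' (fun i => fr (it f n i))} : ℝ)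
      ≤ (3 / 2 * (e : ℝ)) ^ n

theorem ph_it {G : Tup 3 Qb} {τ : K3 Qb →ₐ[Qb] K3 Qb} (hτ : Ext G τ) (n : ℕ) :
    ph τ n = fun i => fr (it G n i) := by
  funext i
  have h1 : ph τ n i = τ^[n] (fr (X i)) := rfl
  have h2 : ∀ q : Po 3 Qb, (aeval G : Po 3 Qb →ₐ[Qb] Po 3 Qb)^[n] q = aeval (it G n) q := by
    induction n with
    | zero => intro q; rw [it_zero, aeval_X_left_apply]; rfl
    | succ n ih =>
      intro q
      rw [Function.iterate_succ_apply', ih rfl, aeval_it_succ']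
  rw [h1, ext_iter hτ, h2, aeval_X]

/-- an algebraic polynomial is constant -/
theorem alg_const {J : Po 3 Qb} (h : IsAlgebraic Qb J) : ∃ c : Qb, J = C c := by
  obtain ⟨c, hc⟩ : ∃ c : Qb, algebraMap Qb (Po 3 Qb) c = J := by
    have h1 : IsIntegral Qb J := h.isIntegral
    have h2 : (minpoly Qb J).degree = 1 :=
      IsAlgClosed.degree_eq_one_of_irreducible Qb (minpoly.irreducible h1)
    exact minpoly.mem_range_of_degree_eq_one Qb J h2
  exact ⟨c, hc.symm⟩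

theorem grow_aux (D e : ℕ) (he : 2 ≤ e) : ∃ n₀ : ℕ, ∀ n ≥ n₀,
    4 * ((D : ℝ) * (3 / 2 * (e : ℝ)) ^ n) ≤ ((e : ℝ) ^ n) * (e : ℝ) ^ n := by
  have h1 : ∃ n₀ : ℕ, 4 * (D : ℝ) ≤ (4 / 3 : ℝ) ^ n₀ := by
    obtain ⟨n, hn⟩ := pow_unbounded_of_one_lt (4 * (D : ℝ)) (by norm_num : (1 : ℝ) < 4 / 3)
    exact ⟨n, hn.le⟩
  obtain ⟨n₀, hn₀⟩ := h1
  refine ⟨n₀, fun n hn => ?_⟩
  have he' : (2 : ℝ) ≤ e := by exact_mod_cast he
  have h2 : (4 / 3 : ℝ) ^ n₀ ≤ (4 / 3 : ℝ) ^ n :=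
    pow_le_pow_right₀ (by norm_num) hn
  have h3 : (4 / 3 : ℝ) ^ n * (3 / 2 * (e : ℝ)) ^ n ≤ (e : ℝ) ^ n * (e : ℝ) ^ n := by
    rw [← mul_pow, ← mul_pow]
    apply pow_le_pow_left₀ (by positivity)
    nlinarith
  calc 4 * ((D : ℝ) * (3 / 2 * (e : ℝ)) ^ n) = (4 * (D : ℝ)) * (3 / 2 * (e : ℝ)) ^ n := by ring
    _ ≤ (4 / 3 : ℝ) ^ n * (3 / 2 * (e : ℝ)) ^ n := by
        apply mul_le_mul_of_nonneg_right (hn₀.trans h2)
        positivity
    _ ≤ _ := h3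

theorem cO_cast (p : Nat.Primes) (z : Fin 3 → ℤ) :
    cO (fun i => ((z i : ℤ) : O p)) = cZ z := cO_intCast p z

/-- the main theorem, the case of slow growth -/
theorem thmF (Al : Al) (f : Tup 3 Qb) (b : Po 3 Qb) (θ₀ : Po 3 Qb)
    (Φ₀ : Polynomial (Po 3 Qb)) (Δ₀ : Po 3 Qb) (R₀ : Fin 3 → Polynomial (Po 3 Qb))
    (hinj : Function.Injective (aeval f : Po 3 Qb →ₐ[Qb] Po 3 Qb)) (hinv : NoInv f)
    (hfib : ∀ y : Fin 3 → Qb, {x | pmap f x = y}.Finite) (hjac : ∀ c : Qb, jac f ≠ C c)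
    (hprim₀ : Prim f θ₀ Φ₀ Δ₀ R₀) (hgr : Gr f Φ₀.natDegree) (hb : b ≠ 0) :
    ∃ x : Fin 3 → Qb, (∀ n : ℕ, eval ((pmap f)^[n] x) b ≠ 0) ∧ DenseOrbit f x := by
  set e : ℕ := Φ₀.natDegree with he
  obtain ⟨τ₀, hτ₀⟩ := Al.exx 3 Qb f hinj
  have hcov : Cov f e := Al.cve 3 Qb f θ₀ Φ₀ Δ₀ R₀ hinj hprim₀
  have hdeg₀ : deh (τ₀ : K3 Qb →+* K3 Qb) = e := Al.dgn 3 Qb f τ₀ θ₀ Φ₀ Δ₀ R₀ hinj hτ₀ hprim₀
  have he1 : 1 ≤ e := by
    rcases Nat.eq_zero_or_pos e with h | h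
    · exfalso
      have h1 : Φ₀ = 1 := by
        have h2 := Polynomial.eq_C_of_natDegree_eq_zero (he ▸ h)
        have h3 := hprim₀.monic
        rw [h2, Polynomial.Monic, Polynomial.leadingCoeff_C] at h3
        rw [h2, h3, Polynomial.C_1]
      have h2 := hprim₀.root
      rw [h1, ev2, Polynomial.eval₂_one] at h2
      exact one_ne_zero h2
    · exact h
  obtain ⟨p, K₀, a, H, hp, hK, hcovG, hinjG, -, hconj, hav⟩ := setup f b e he1 hcov hb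
  set G : Tup 3 Qb := flQ p H with hG
  have hp0 : ((p : ℕ) : Qb) ^ 2 ≠ 0 := pow_ne_zero 2 (Nat.cast_ne_zero.mpr p.2.ne_zero)
  have hCj : Cj f G K₀ (fun i => (a i : Qb)) (((p : ℕ) : Qb) ^ 2) := ⟨hp0, hK, hconj⟩
  have hinvG : NoInv G := by
    apply noInv_conj (it f K₀) G (fun i => (a i : Qb)) hp0 _ (Al.nit 3 Qb f K₀ hinj hK hinv)
    intro z
    rw [pmap_it]
    exact hconj z
  have hjacG := Al.jcc 3 Qb f G K₀ _ _ hCj hinj hjac
  have hfibG := Al.ffc 3 Qb f G K₀ _ _ hCj hfib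
  have hZ := Al.zmt 3 Qb G hfibG
  obtain ⟨τ, hτ⟩ := Al.exx 3 Qb G hinjG
  obtain ⟨θ, Φ, Δ, R, hprim⟩ := Al.pel 3 Qb G hinjG
  have hdeg : deh (τ : K3 Qb →+* K3 Qb) = Φ.natDegree :=
    Al.dgn 3 Qb G τ θ Φ Δ R hinjG hτ hprim
  have hEe : Φ.natDegree = e ^ K₀ := by
    rw [← hdeg, ← hdeg₀]
    exact Al.dgc 3 Qb f G K₀ _ _ τ₀ τ hCj hτ₀ hτ (by rw [hdeg₀]; exact he1)
  have hcovE : Cov G Φ.natDegree := Al.cve 3 Qb G θ Φ Δ R hinjG hprim
  have hE1 : 1 ≤ Φ.natDegree := by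
    rw [hEe]
    exact Nat.one_le_pow _ _ he1
  have hE2 : 2 ≤ Φ.natDegree := by
    rcases Nat.lt_or_ge Φ.natDegree 2 with h | h
    · exfalso
      have h1 : Φ.natDegree = 1 := by omega
      obtain ⟨c, hc⟩ := Al.aut 3 Qb G τ hinjG hτ (by rw [hdeg, h1]) hZ
      exact hjacG c hc
    · exact h
  have he2 : 2 ≤ e := by
    by_contra hlt
    have h1 : e = 1 := by omega
    rw [hEe, h1, one_pow] at hE2
    omega
  by_contra hno
  have hbot : ∀ z : Fin 3 → ℤ, van G (cZ z) ≠ ⊥ := by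
    intro z hz
    apply hno
    refine ⟨lam p a (cO fun i => ((z i : ℤ) : O p)), fun n => hav n _, ?_⟩
    apply dense_of_conj f p K₀ a H hconj
    rw [cO_cast]
    exact hz
  have hJ0 : jac G ≠ 0 := by
    intro h
    exact hjacG 0 (by rw [h, C_0])
  obtain ⟨c₁, hc₁, h₁⟩ := rnk_deg Al.rnk hinjG hinvG Al.rtd 1
  have hsup0 : Sup0 G Φ.natDegree (jac G) := by
    intro c m y hc hm
    obtain ⟨z, hzy, hz, hI, hpr, hor⟩ := Al.gdp 3 p H Φ.natDegree (c * (Δ * (jac G * c₁))) m y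
      (by norm_num) hp hcovE hE1 hinvG
      (mul_ne_zero hc (mul_ne_zero hprim.ne (mul_ne_zero hJ0 hc₁))) hm
    rw [map_mul, map_mul, map_mul] at hz
    rcases hor with h | ⟨hSS, θ', hθ'⟩
    · exact absurd h (hbot z)
    · have hz2 := right_ne_zero_of_mul hz
      have hz3 := right_ne_zero_of_mul hz2
      refine ⟨z, hzy, left_ne_zero_of_mul hz, ?_⟩
      refine good Al.vmx Al.rdt Al.jtr Al.itg Al.ron Al.bet Al.crv Al.one hinjG hτ hprim hZ hE2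
        hI hpr hSS ⟨θ', hθ'⟩ (not_mem_van (left_ne_zero_of_mul hz2))
        (not_mem_van (left_ne_zero_of_mul hz3)) ?_
      intro c' hc'
      have h2 := h₁ (cZ z) (right_ne_zero_of_mul hz3) _ (by
        refine (totalDegree_sub_C _ c').trans ?_
        rw [totalDegree_X]) hc'
      have h3 := congrArg totalDegree (sub_eq_zero.1 h2)
      rw [totalDegree_X, totalDegree_C] at h3
      exact one_ne_zero h3
  have hsup := sup_of_sup0 Al.rnk Al.rtd Al.wpl Al.uni hinjG hinvG hE2 hjacG hsup0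
  have htr : Transcendental Qb (fr (jac G)) := by
    intro halg
    obtain ⟨q, hq, hq0⟩ := halg
    have h1 : Polynomial.aeval (jac G) q = 0 := by
      apply IsFractionRing.injective (Po 3 Qb) (K3 Qb)
      rw [map_zero, ← hq0]
      exact (Polynomial.aeval_algebraMap_apply (K3 Qb) (jac G) q).symm
    have h2 : Algebra.IsAlgebraic Qb Qb := Algebra.IsAlgebraic.of_finite Qb Qb
    have h3 : IsAlgebraic Qb (jac G) := ⟨q, hq, h1⟩
    obtain ⟨c, hc⟩ := Pool.Agent.H55.FFM.alg_const h3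
    exact hjacG c hc
  rcases Al.dic Qb (K3 Qb) (fr (jac G)) (τ (fr (jac G))) htr with hind | hdep
  · exact supA Al.rnk Al.rtd Al.rel Al.rem Al.pbk Al.deh Al.evd hinjG hinvG hτ hjacG hind hsup
  · obtain ⟨M₀, hM₀⟩ := hgr
    obtain ⟨n₀, hn₀⟩ := grow_aux (jac G).totalDegree e he2
    set n : ℕ := max M₀ n₀ with hn
    have hnK : n ≤ K₀ * n := Nat.le_mul_of_pos_left _ hK
    have hM1 : ∀ s s' s'' : Fin 3 → Qb,
        dg Qb {lc s (xx Qb), lc s' (ph τ₀ (K₀ * n)), lc s'' (ph τ₀ (K₀ * n))} ≤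
          ⌊(3 / 2 * (e : ℝ)) ^ (K₀ * n)⌋₊ := by
      intro s s' s''
      rw [ph_it hτ₀]
      exact Nat.le_floor (hM₀ (K₀ * n) ((le_max_left _ _).trans hnK) s s' s'')
    refine supB Al.rnk Al.rtd Al.b1p Al.b2p Al.aln Al.rl4 Al.cij Al.ev4 Al.dmx Al.del Al.bsf
      Al.bbd hinjG hinvG hτ hE1 hjacG hdep (n := n)
      (Al.grb Qb f G K₀ _ _ τ₀ τ n _ hCj hτ₀ hτ hM1) ?_ hsup
    have h1 := hn₀ (K₀ * n) ((le_max_right _ _).trans hnK)
    have h2 : (⌊(3 / 2 * (e : ℝ)) ^ (K₀ * n)⌋₊ : ℝ) ≤ (3 / 2 * (e : ℝ)) ^ (K₀ * n) :=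
      Nat.floor_le (by positivity)
    have h3 : 4 * (((jac G).totalDegree : ℝ) * (⌊(3 / 2 * (e : ℝ)) ^ (K₀ * n)⌋₊ : ℝ)) ≤
        ((e : ℝ) ^ (K₀ * n)) * (e : ℝ) ^ (K₀ * n) := by
      refine le_trans ?_ h1
      gcongr
    rw [hEe, ← pow_mul]
    exact_mod_cast h3

end Pool.Agent.H55.FFM
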