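import Pool.Agent.H4.FFM.RIE
import Pool.Agent.H11.FFM.NOE
import Pool.Agent.H17.FFM.DMX
import Pool.Agent.H17.FFM.PV4
import Pool.Agent.H35.FFM.EJF
import Pool.Agent.H35.FFM.RDT
import Pool.Agent.H36.FFM.BAS
import Pool.Agent.H38.FFM.INQ
import Pool.Agent.H38.FFM.LNN
import Pool.Agent.H41.FFM.EXX
import Pool.Agent.H41.FFM.FLG
import Pool.Agent.H41.FFM.ITG
import Pool.Agent.H41.FFM.PRM
import Pool.Agent.H41.FFM.REL
import Pool.Agent.H42.FFM.DGP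
import Pool.Agent.H42.FFM.PLA
import Pool.Agent.H42.FFM.PV1
import Pool.Agent.H42.FFM.PV2
import Pool.Agent.H51.FFM.B1P
import Pool.Agent.H51.FFM.REM
import Pool.Agent.H52.FFM.CTN
import Pool.Agent.H53.FFM.PV3
import Pool.Agent.H54.FFM.CHR
import Pool.Agent.H54.FFM.EUL
import Pool.Agent.H54.FFM.EVD
import Pool.Agent.H54.FFM.RNK
import Pool.Agent.H59.FFM.BSF
import Pool.Agent.H59.FFM.LEV
import Pool.Agent.H59.FFM.ONE
import Pool.Agent.H60.FFM.EV4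
import Pool.Agent.H60.FFM.EXT
import Pool.Agent.H61.FFM.BBD
import Pool.Agent.H61.FFM.FFC
import Pool.Agent.H61.FFM.JTR
import Pool.Agent.H66.FFM.DQT
import Pool.Agent.H66.FFM.HIC
import Pool.Agent.H69.FFM.ALN
import Pool.Agent.H69.FFM.CIJ
import Pool.Agent.H69.FFM.DIC
import Pool.Agent.H72.FFM.CMP
import Pool.Agent.H72.FFM.TRC
import Pool.Agent.H79.FFM.CSZ
import Pool.Agent.H79.FFM.DGC
import Pool.Agent.H79.FFM.DGN
import Pool.Agent.H79.FFM.GRB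
import Pool.Agent.H79.FFM.JCC
import Pool.Agent.H86.FFM.DVL
import Pool.Agent.H91.FFM.TMX
import Pool.Agent.H97.FFM.B2P
import Pool.Agent.H97.FFM.CRV
import Pool.Agent.H97.FFM.IND
import Pool.Agent.H97.FFM.RL4
import Pool.Agent.H97.FFM.UNI
import Pool.Agent.H97.FFM.UPB
import Pool.Agent.H97.FFM.VMX
import Pool.Agent.H55.FFM.GDP
import Pool.Agent.H55.FFM.IRR
import Pool.Agent.H55.FFM.Main
import Pool.Agent.H55.FFM.SupP
import Pool.Agent.H8.TD.All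
import Pool.Agent.H18.HIT.All

/-!
# Maps of affine 3-space with finite fibres: the rows
-/

open MvPolynomial
open Pool.Agent.H12.ZD (pmap v O Res DenseOrbit NoInv)
open Pool.Agent.H18.HIT

namespace Pool.Agent.H55.FFM.All

/-! ## Facts of the boards of H8/TD -/

theorem nrf : T_NRF := Pool.Agent.H8.TD.Al.nrf
theorem low : T_LOW := Pool.Agent.H8.TD.Al.low
theorem pbk : Pool.Agent.H55.FFM.T_PBK := Pool.Agent.H8.TD.Al.pbk
theorem clz : T_CLZ := Pool.Agent.H8.TD.Al.clz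
theorem clr : T_CLR := Pool.Agent.H8.TD.Al.clr
theorem adj : T_ADJ := Pool.Agent.H8.TD.Al.adj
theorem pdg : T_PDG := Pool.Agent.H8.TD.Al.pdg

/-! ## Function fields -/

theorem tmx : T_TMX := Pool.Agent.H91.FFM.pf_TMX
theorem tln : T_TLN := Pool.Agent.H91.FFM.pf_TLN
theorem deh : T_DEH := Pool.Agent.H91.FFM.pf_DEH
theorem bas : T_BAS := Pool.Agent.H36.FFM.pf_BAS
theorem cmp : T_CMP := Pool.Agent.H72.FFM.pf_CMP tmx bas
theorem grm : T_GRM := Pool.Agent.H72.FFM.pf_GRM tmx tln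
theorem ind : T_IND := Pool.Agent.H97.FFM.pf_IND bas
theorem trc : T_TRC := Pool.Agent.H72.FFM.pf_TRC bas tmx ind tln
theorem dvl : T_DVL := Pool.Agent.H86.FFM.pf_DVL trc
theorem jnt : T_JNT := Pool.Agent.H72.FFM.pf_JNT cmp
theorem noe : T_NOE := Pool.Agent.H11.FFM.pf_NOE
theorem pv1 : T_PV1 := Pool.Agent.H42.FFM.pf_PV1
theorem pv2 : T_PV2 := Pool.Agent.H42.FFM.pf_PV2
theorem pv3 : T_PV3 := Pool.Agent.H53.FFM.pf_PV3 pv1
theorem pv4 : T_PV4 := Pool.Agent.H17.FFM.pf_PV4 pv1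
theorem lnn : T_LNN := Pool.Agent.H38.FFM.pf_LNN
theorem pla : T_PLA := Pool.Agent.H42.FFM.pf_PLA noe pv1 pv2 pv3 pv4 lnn nrf
theorem lev : T_LEV := Pool.Agent.H59.FFM.pf_LEV
theorem flg : T_FLG := Pool.Agent.H41.FFM.pf_FLG lev
theorem csz : T_CSZ := Pool.Agent.H79.FFM.pf_CSZ low
theorem dgp : T_DGP := Pool.Agent.H42.FFM.pf_DGP low csz
theorem rie : T_RIE := Pool.Agent.H4.FFM.pf_RIE lev dgp csz
theorem ext : Pool.Agent.H55.FFM.T_EXT := Pool.Agent.H60.FFM.pf_EXT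
theorem prm : Pool.Agent.H55.FFM.T_PRM := Pool.Agent.H41.FFM.pf_PRM dgp rie ext pbk deh
theorem itg : T_ITG := Pool.Agent.H41.FFM.pf_ITG pla prm
theorem inq : T_INQ :=
  Pool.Agent.H38.FFM.pf_INQ rie prm csz ind grm tln trc dvl jnt flg
theorem one : T_ONE := Pool.Agent.H59.FFM.pf_ONE pla inq csz dgp prm

/-! ## Traces and residues -/

theorem eul : T_EUL := Pool.Agent.H54.FFM.pf_EUL
theorem dqt : T_DQT := Pool.Agent.H66.FFM.pf_DQT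
theorem jci : T_JCI := Pool.Agent.H54.FFM.pf_JCI
theorem fbr : T_FBR := Pool.Agent.H66.FFM.pf_FBR Pool.Agent.H18.HIT.All.elm
theorem min : T_MIN := Pool.Agent.H54.FFM.pf_MIN
theorem tre : T_TRE := Pool.Agent.H54.FFM.pf_TRE
theorem ejf : T_EJF := Pool.Agent.H35.FFM.pf_EJF eul dqt jci fbr min tre
theorem rdt : T_RDT := Pool.Agent.H35.FFM.pf_RDT tmx bas
theorem jtr : T_JTR := Pool.Agent.H61.FFM.pf_JTR ejf rdt
theorem ron : T_RON := Pool.Agent.H66.FFM.pf_RON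
theorem chr : T_CHR := Pool.Agent.H54.FFM.pf_CHR
theorem aut : T_AUT := Pool.Agent.H54.FFM.pf_AUT chr
theorem vmx : T_VMX := Pool.Agent.H97.FFM.pf_VMX
theorem exx : T_EXX := Pool.Agent.H41.FFM.pf_EXX
theorem rnk : T_RNK := Pool.Agent.H54.FFM.pf_RNK
theorem hic : T_HIC := Pool.Agent.H66.FFM.pf_HIC Pool.Agent.H18.HIT.All.hit
theorem gdp : T_GDP := pf_GDP Pool.Agent.H18.HIT.All.inc Pool.Agent.H18.HIT.All.prm
  Pool.Agent.H18.HIT.All.pel hic Pool.Agent.H18.HIT.All.pre Pool.Agent.H18.HIT.All.str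
  Pool.Agent.H18.HIT.All.avo Pool.Agent.H18.HIT.All.igc Pool.Agent.H18.HIT.All.lyo
  Pool.Agent.H18.HIT.All.hyp Pool.Agent.H18.HIT.All.can
theorem uni : T_UNI := Pool.Agent.H97.FFM.pf_UNI

/-! ## Degrees -/

theorem ctn : T_CTN := Pool.Agent.H52.FFM.pf_CTN
theorem crv : T_CRV := Pool.Agent.H97.FFM.pf_CRV ctn
theorem rl4 : T_RL4 := Pool.Agent.H97.FFM.pf_RL4 ctn
theorem bsf : T_BSF := Pool.Agent.H59.FFM.pf_BSF clr
theorem dmx : T_DMX := Pool.Agent.H17.FFM.pf_DMX pla dgp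
theorem bbd : T_BBD := Pool.Agent.H61.FFM.pf_BBD Pool.Agent.H8.TD.Al.ins Pool.Agent.H8.TD.Al.bz1
theorem rel : T_REL := Pool.Agent.H41.FFM.pf_REL
theorem rem : T_REM := Pool.Agent.H51.FFM.pf_REM
theorem b1p : T_B1P := Pool.Agent.H51.FFM.pf_B1P rem pbk deh
theorem irr : T_IRR := pf_IRR
theorem b2p : T_B2P := Pool.Agent.H97.FFM.pf_B2P rel irr pdg adj
theorem cij : T_CIJ := Pool.Agent.H69.FFM.pf_CIJ
theorem evd : T_EVD := Pool.Agent.H54.FFM.pf_EVD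
theorem ev4 : T_EV4 := Pool.Agent.H60.FFM.pf_EV4
theorem aln : T_ALN := Pool.Agent.H69.FFM.pf_ALN
theorem dic : T_DIC := Pool.Agent.H69.FFM.pf_DIC
theorem dgn : T_DGN := Pool.Agent.H79.FFM.pf_DGN tmx bas
theorem upb : T_UPB := Pool.Agent.H97.FFM.pf_UPB
theorem dgc : T_DGC := Pool.Agent.H79.FFM.pf_DGC cmp
theorem grb : T_GRB := Pool.Agent.H79.FFM.pf_GRB
theorem jcc : T_JCC := Pool.Agent.H79.FFM.pf_JCC chr
theorem ffc : T_FFC := Pool.Agent.H61.FFM.pf_FFC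

/-- the orbit closures of general points are curves, if no orbit is dense -/
theorem sup (f : Tup 3 Qb) (b : Po 3 Qb) (θ₀ : Po 3 Qb)
    (Φ₀ : Polynomial (Po 3 Qb)) (Δ₀ : Po 3 Qb) (R₀ : Fin 3 → Polynomial (Po 3 Qb))
    (hinj : Function.Injective (aeval f : Po 3 Qb →ₐ[Qb] Po 3 Qb)) (hinv : NoInv f)
    (hprim₀ : Prim f θ₀ Φ₀ Δ₀ R₀) (hb : b ≠ 0) :
    (∃ x : Fin 3 → Qb, (∀ n : ℕ, eval ((pmap f)^[n] x) b ≠ 0) ∧ DenseOrbit f x) ∨
      ∃ (p : Nat.Primes) (K₀ : ℕ) (a : Fin 3 → O p) (H : Tup 3 (O p))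
        (τ₀ τ : Pool.Agent.H8.TD.K3 Qb →ₐ[Qb] Pool.Agent.H8.TD.K3 Qb) (θ : Po 3 Qb)
        (Φ : Polynomial (Po 3 Qb)) (Δ : Po 3 Qb)
        (R : Fin 3 → Polynomial (Po 3 Qb)), CD f Φ₀.natDegree p K₀ a H τ₀ τ θ Φ Δ R :=
  supP exx Pool.Agent.H18.HIT.All.cve dgn Pool.Agent.H18.HIT.All.nit
    Pool.Agent.H18.HIT.All.pel dgc gdp vmx rdt crv rnk Pool.Agent.H18.HIT.All.rtd
    f b θ₀ Φ₀ Δ₀ R₀ hinj hinv hprim₀ hb

end Pool.Agent.H55.FFM.All
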