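import Pool.Agent.H55.FFM.Good
import Pool.Agent.H55.FFM.Lem

/-!
# Maps of affine 3-space with finite fibres: the jacobian and its pull back are independent
-/

open MvPolynomial
open Pool.Agent.H12.ZD (pmap v O Res DenseOrbit NoInv)
open Pool.Agent.H18.HIT
open Pool.Agent.H8.TD (lc Wsp K3 xx ph)

namespace Pool.Agent.H55.FFM

/-- the good points are dense -/
def Sup {k : Type} [Field k] (G : Tup 3 k) (E : ℕ) (J : Po 3 k) : Prop :=
  ∀ c : Po 3 k, c ≠ 0 → ∃ z : Fin 3 → k, eval z c ≠ 0 ∧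
    ∃ (F : Type) (_ : Field F) (_ : Algebra k F) (π : Po 3 k →ₐ[k] F) (τ' : F →ₐ[k] F),
      VM G (van G z) π τ' ∧ Cv k π.range ∧ deh (τ' : F →+* F) = E ∧ dg k {π J} ≤ E - 1

section

variable {k : Type} [Field k]

/-- general orbit closures are not contained in surfaces of bounded degree -/
theorem rnk_deg (hRNK : T_RNK) {G : Tup 3 k}
    (hinj : Function.Injective (aeval G : Po 3 k →ₐ[k] Po 3 k)) (hinv : NoInv G)
    (hRTD : T_RTD) (q : ℕ) : ∃ c : Po 3 k, c ≠ 0 ∧ ∀ z : Fin 3 → k, eval z c ≠ 0 →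
      ∀ S : Po 3 k, S.totalDegree ≤ q → S ∈ van G z → S = 0 := by
  obtain ⟨c, hc, h⟩ := hRNK 3 k G (restrictTotalDegree (Fin 3) k q) hinj hinv
    (hRTD 3 k q).1
  exact ⟨c, hc, fun z hz S hS hSv => h z hz S (by rwa [mem_restrictTotalDegree]) hSv⟩

theorem totalDegree_sub_C (J : Po 3 k) (c : k) : (J - C c).totalDegree ≤ J.totalDegree := by
  refine (totalDegree_sub _ _).trans ?_
  rw [totalDegree_C]
  exact max_le le_rfl (Nat.zero_le _)

/-- the image of a nonconstant polynomial is transcendental if `V(I)` is general -/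
theorem tr_of_deg [IsAlgClosed k] {G : Tup 3 k} {I : Ideal (Po 3 k)} {F : Type} [Field F]
    [Algebra k F] {π : Po 3 k →ₐ[k] F} {τ' : F →ₐ[k] F} (hvm : VM G I π τ') {J : Po 3 k}
    (hJ : ∀ c : k, J ≠ C c) (h : ∀ S : Po 3 k, S.totalDegree ≤ J.totalDegree → S ∈ I → S = 0) :
    Transcendental k (π J) := by
  intro halg
  have h1 : IsIntegral k (π J) := halg.isIntegral
  obtain ⟨p, hp, hp0⟩ := h1
  have h2 : ∃ c : k, π J = algebraMap k F c := by
    have h4 : (minpoly k (π J)).degree = 1 :=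
      IsAlgClosed.degree_eq_one_of_irreducible k (minpoly.irreducible ⟨p, hp, hp0⟩)
    obtain ⟨c, hc⟩ := minpoly.mem_range_of_degree_eq_one k (π J) h4
    exact ⟨c, hc.symm⟩
  obtain ⟨c', hc'⟩ := h2
  have h3 : J - C c' ∈ I := by
    rw [← hvm.ker, map_sub, hc', ← MvPolynomial.algebraMap_eq, AlgHom.commutes, sub_self]
  exact hJ c' (sub_eq_zero.1 (h _ (totalDegree_sub_C J c') h3))

theorem evX_map {A B : Type} [CommRing A] [CommRing B] [Algebra k A] [Algebra k B]
    (π : A →ₐ[k] B) (a b : A) (Ξ : Polynomial (Polynomial k)) :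
    evX (π a) (π b) Ξ = π (evX a b Ξ) := by
  have h := Polynomial.hom_eval₂ Ξ (Polynomial.aeval a : Polynomial k →ₐ[k] A).toRingHom
    (π : A →+* B) b
  have h2 : (Polynomial.aeval (π a) : Polynomial k →ₐ[k] B).toRingHom =
      (π : A →+* B).comp (Polynomial.aeval a : Polynomial k →ₐ[k] A).toRingHom := by
    refine Polynomial.ringHom_ext' ?_ ?_
    · ext x
      simp
    · simp
  unfold evX
  rw [h2]
  exact h.symm

theorem pbk_single (hPBK : T_PBK) (hDEH : T_DEH) {F : Type} [Field F] [Algebra k F]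
    (τ' : F →ₐ[k] F) (n : ℕ) (a : F) :
    dg k {τ'^[n] a} = deh (τ' : F →+* F) ^ n * dg k {a} := by
  have h1 := hPBK k F τ' n {a}
  rw [Set.image_singleton] at h1
  rw [h1, hDEH F (τ' : F →+* F)]
  rfl

theorem com_iter {G : Tup 3 k} {I : Ideal (Po 3 k)} {F : Type} [Field F]
    [Algebra k F] {π : Po 3 k →ₐ[k] F} {τ' : F →ₐ[k] F} (hvm : VM G I π τ') (n : ℕ)
    (q : Po 3 k) : τ'^[n] (π q) = π ((aeval G : Po 3 k →ₐ[k] Po 3 k)^[n] q) := by
  induction n with
  | zero => rfl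
  | succ n ih => rw [Function.iterate_succ_apply', Function.iterate_succ_apply', ih, hvm.com]

theorem ext_iter {G : Tup 3 k} {τ : K3 k →ₐ[k] K3 k} (hτ : Ext G τ) (n : ℕ)
    (q : Po 3 k) : τ^[n] (fr q) = fr ((aeval G : Po 3 k →ₐ[k] Po 3 k)^[n] q) := by
  induction n with
  | zero => rfl
  | succ n ih => rw [Function.iterate_succ_apply', Function.iterate_succ_apply', ih, hτ]

theorem tr_map {F : Type} [Field F] [Algebra k F] (τ' : F →ₐ[k] F) {a : F}
    (ha : Transcendental k a) : Transcendental k (τ' a) :=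
  fun h => ha (by
    obtain ⟨p, hp, hp0⟩ := h
    refine ⟨p, hp, τ'.injective ?_⟩
    rw [map_zero, ← hp0, Polynomial.aeval_algHom_apply]
    rfl)

/-- the case of independence -/
theorem supA (hRNK : T_RNK) (hRTD : T_RTD) (hREL : T_REL) (hREM : T_REM) (hPBK : T_PBK)
    (hDEH : T_DEH) (hEVD : T_EVD) [IsAlgClosed k] [CharZero k] {G : Tup 3 k}
    {τ : K3 k →ₐ[k] K3 k} (hinj : Function.Injective (aeval G : Po 3 k →ₐ[k] Po 3 k))
    (hinv : NoInv G) (hτ : Ext G τ) {E : ℕ} {J : Po 3 k} (hJ : ∀ c : k, J ≠ C c)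
    (hind : AlgebraicIndependent k ![fr J, τ (fr J)]) (hsup : Sup G E J) : False := by
  set J' : Po 3 k := aeval G J with hJ'
  obtain ⟨c, hc, h⟩ := rnk_deg hRNK hinj hinv hRTD
    (max (E * (E - 1) * J.totalDegree + (E - 1) * J'.totalDegree) J.totalDegree)
  obtain ⟨z, hz, F, _, _, π, τ', hvm, hcv, hdeg, hdg⟩ := hsup c hc
  have hta : Transcendental k (π J) := tr_of_deg hvm hJ fun S hS hSI =>
    h z hz S (hS.trans (le_max_right _ _)) hSI
  have hb : τ' (π J) = π J' := hvm.com J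
  have htb : Transcendental k (π J') := by
    rw [← hb]
    exact tr_map τ' hta
  have hfin := fin_cv hcv hta
  obtain ⟨Ξ, hΞ, hΞ0⟩ := hREL k F (π J) (π J') hta (Algebra.IsAlgebraic.isAlgebraic _)
  obtain ⟨h1, h2⟩ := hREM k F (π J) (π J') Ξ hta htb hΞ hΞ0
  have h3 : dg k {π J'} = E * dg k {π J} := by
    have h4 := pbk_single hPBK hDEH τ' 1 (π J)
    rw [Function.iterate_one, hb, hdeg, pow_one] at h4
    exact h4
  have h4 : 1 ≤ dg k {π J} := dg_cv hcv hta
  have h5 : 1 ≤ dg k {π J, π J'} := by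
    rcases Nat.eq_zero_or_pos (dg k {π J, π J'}) with h6 | h6
    · rw [h6, mul_zero] at h1
      omega
    · exact h6
  have h6 : Ξ.natDegree ≤ E - 1 := by
    calc Ξ.natDegree ≤ Ξ.natDegree * dg k {π J, π J'} := Nat.le_mul_of_pos_right _ h5
      _ = dg k {π J} := h1.symm
      _ ≤ E - 1 := hdg
  have h7 : dgX Ξ ≤ E * (E - 1) := by
    calc dgX Ξ ≤ dgX Ξ * dg k {π J, π J'} := Nat.le_mul_of_pos_right _ h5
      _ = dg k {π J'} := h2.symm
      _ = E * dg k {π J} := h3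
      _ ≤ E * (E - 1) := Nat.mul_le_mul_left _ hdg
  obtain ⟨h8, h9⟩ := hEVD 3 k J J' Ξ hΞ.ne_zero
  have h10 : fr J' = τ (fr J) := (hτ J).symm
  rw [h10] at h9
  refine h9 hind (h z hz _ ?_ ?_)
  · refine le_trans (h8.trans ?_) (le_max_left _ _)
    exact add_le_add (Nat.mul_le_mul_right _ h7) (Nat.mul_le_mul_right _ h6)
  · rw [← hvm.ker, ← evX_map π, hΞ0]

end

end Pool.Agent.H55.FFM
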