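import Pool.Agent.H55.FFM.CaseA
import Pool.Agent.H8.TD.Rec1

/-!
# Maps of affine 3-space with finite fibres: the jacobian and its pull back are dependent
-/

open MvPolynomial
open Pool.Agent.H12.ZD (pmap v O Res DenseOrbit NoInv)
open Pool.Agent.H18.HIT
open Pool.Agent.H8.TD (lc Wsp K3 xx ph lc_single lc_map lc_iterate trdeg_K3 fg_K3)

namespace Pool.Agent.H55.FFM

variable {k : Type} [Field k]

/-- polynomials as rational functions -/
noncomputable def frh (k : Type) [Field k] : Po 3 k →ₐ[k] K3 k :=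
  IsScalarTower.toAlgHom k (Po 3 k) (K3 k)

theorem frh_apply (q : Po 3 k) : frh k q = fr q := rfl

theorem map_aeval' {A : Type} [CommRing A] [Algebra k A] (π : Po 3 k →ₐ[k] A) {n : ℕ}
    (φ : Fin n → Po 3 k) (Φ : MvPolynomial (Fin n) k) :
    π (aeval φ Φ) = aeval (fun i => π (φ i)) Φ := by
  have h := MvPolynomial.comp_aeval (σ := Fin n) (R := k) (f := φ) (φ := π)
  exact DFunLike.congr_fun h Φ

theorem lc_map' {A B : Type} [CommRing A] [CommRing B] [Algebra k A] [Algebra k B]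
    (f : A →ₐ[k] B) {n : ℕ} (s : Fin n → k) (φ : Fin n → A) :
    f (lc s φ) = lc s fun i => f (φ i) := by
  rw [lc, lc, map_sum]
  exact Finset.sum_congr rfl fun i _ => map_smul f _ _

/-- the case of dependence -/
theorem supB (hRNK : T_RNK) (hRTD : T_RTD) (hB1P : T_B1P)
    (hB2P : T_B2P) (hALN : T_ALN) (hRL4 : T_RL4) (hCIJ : T_CIJ) (hEV4 : T_EV4) (hDMX : T_DMX)
    (hDEL : T_DEL) (hBSF : T_BSF) (hBBD : T_BBD) [IsAlgClosed k] [CharZero k] {G : Tup 3 k}
    {τ : K3 k →ₐ[k] K3 k} (hinj : Function.Injective (aeval G : Po 3 k →ₐ[k] Po 3 k))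
    (hinv : NoInv G) (hτ : Ext G τ) {E : ℕ} (hE : 1 ≤ E) {J : Po 3 k} (hJ : ∀ c : k, J ≠ C c)
    (hdep : IsAlgebraic (IntermediateField.adjoin k {fr J}) (τ (fr J)))
    {n M : ℕ}
    (hM : ∀ s s' s'' : Fin 3 → k, dg k {lc s (xx k), lc s' (ph τ n), lc s'' (ph τ n)} ≤ M)
    (hgrow : 4 * (J.totalDegree * M) ≤ E ^ n * E ^ n) (hsup : Sup G E J) : False := by
  have hinf : Infinite k := IsAlgClosed.instInfinite
  have hEn : 1 ≤ E ^ n := Nat.one_le_pow _ _ hE
  obtain ⟨b, hb⟩ := hBBD k G τ n hτ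
  obtain ⟨i, j, hij⟩ := hCIJ k J hJ
  set a : ℕ := J.totalDegree * M / E ^ n with ha
  have ha1 : a * E ^ n ≤ J.totalDegree * M := Nat.div_mul_le_self _ _
  have ha4 : 4 * a ≤ E ^ n := by
    have h1 : (4 * a) * E ^ n ≤ E ^ n * E ^ n := by
      calc (4 * a) * E ^ n = 4 * (a * E ^ n) := by ring
        _ ≤ 4 * (J.totalDegree * M) := Nat.mul_le_mul_left _ ha1
        _ ≤ E ^ n * E ^ n := hgrow
    exact Nat.le_of_mul_le_mul_right h1 hEn
  obtain ⟨q₀, hq₀⟩ := hBSF (2 * (b * (E - 1)))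
  obtain ⟨c, hc, h⟩ := rnk_deg hRNK hinj hinv hRTD
    (max (max q₀ J.totalDegree) (max 1 (a + a + b * J.totalDegree)))
  obtain ⟨z, hz, F, _, _, π, τ', hvm, hcv, hdeg, hdg⟩ := hsup c hc
  have hta : Transcendental k (π J) := tr_of_deg hvm hJ fun S hS hSI =>
    h z hz S (hS.trans ((le_max_right _ _).trans (le_max_left _ _))) hSI
  have hX0 : ∀ c : k, (X 0 : Po 3 k) ≠ C c := by
    intro c hc0
    have h1 := congrArg totalDegree hc0
    rw [totalDegree_X, totalDegree_C] at h1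
    exact one_ne_zero h1
  have htx : Transcendental k (π (X 0)) := tr_of_deg hvm hX0 fun S hS hSI =>
    h z hz S (hS.trans (by
      rw [totalDegree_X]
      exact (le_max_left _ _).trans (le_max_right _ _))) hSI
  have hfrinj : Function.Injective (algebraMap (Po 3 k) (K3 k)) :=
    IsFractionRing.injective (Po 3 k) (K3 k)
  -- the degree over the field generated by `l`, `l'_n`, `J`
  have hB1 : ∀ Ξ : Polynomial (Polynomial k), Irreducible Ξ →
      evX (fr J) (τ^[n] (fr J)) Ξ = 0 → dgX Ξ = E ^ n * Ξ.natDegree := by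
    intro Ξ hΞ hΞ0
    refine hB1P 3 k G (van G z) F π τ' E J n Ξ hvm hdeg hE hta (dg_cv hcv hta) hΞ ?_
    rw [ext_iter hτ, ← frh_apply, ← frh_apply, evX_map] at hΞ0
    exact hfrinj (by rw [map_zero]; exact hΞ0)
  have hB2 := hB2P k τ J n (E ^ n) M hJ hEn (hALN k (K3 k) τ (fr J) hdep n) hB1 hM
  have hB3 : ∀ s s' : Fin 3 → k, dg k {lc s (xx k), lc s' (ph τ n), fr J} ≤ a := by
    intro s s'
    rw [ha, Nat.le_div_iff_mul_le hEn, mul_comm]
    exact hB2 s s'
  -- the linear form of maximal degree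
  obtain ⟨s', hmax, hpos⟩ := hDMX k F π.range (fun i => π (X i)) hcv (fun i => ⟨X i, rfl⟩)
    ⟨0, htx⟩
  set L : Po 3 k := lc s' (fun i => (X i : Po 3 k)) with hL
  set L' : Po 3 k := (aeval G : Po 3 k →ₐ[k] Po 3 k)^[n] L with hL'
  have hπL : π L = lc s' (fun i => π (X i)) := lc_map' π s' _
  have hfrL : fr L = lc s' (xx k) := lc_map' (frh k) s' _
  have hphL : lc s' (ph τ n) = fr L' := by
    rw [hL', ← ext_iter hτ, hfrL, lc_iterate]
    rfl
  obtain ⟨Φ, hΦ, hΦ0, hΦd⟩ := hRL4 k (K3 k) ![fr (X i), fr (X j), fr J, lc s' (ph τ n)]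
    (trdeg_K3 k) (fg_K3 k) (by
      have h1 := hij.map' (f := frh k) hfrinj
      have h2 : ![fr (X i), fr (X j), fr J] = frh k ∘ ![X i, X j, J] := by
        funext l
        fin_cases l <;> rfl
      rw [← h2] at h1
      exact h1)
  have hd0 : degreeOf 0 Φ ≤ a := by
    refine (hΦd 0).trans ((le_of_eq ?_).trans (hB3 (Pi.single j 1) s'))
    rw [lc_single]
    congr 1
    ext x
    simp only [Set.mem_image, Set.mem_ofPred_eq, Fin.exists_fin_succ]
    simp [eq_comm, xx, or_comm]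
  have hd1 : degreeOf 1 Φ ≤ a := by
    refine (hΦd 1).trans ((le_of_eq ?_).trans (hB3 (Pi.single i 1) s'))
    rw [lc_single]
    congr 1
    ext x
    simp only [Set.mem_image, Set.mem_ofPred_eq, Fin.exists_fin_succ]
    simp [eq_comm, xx, or_comm]
  have hd2 : degreeOf 2 Φ ≤ b := by
    refine (hΦd 2).trans ((le_of_eq ?_).trans (hb (Pi.single i 1) (Pi.single j 1) s'))
    rw [lc_single, lc_single]
    congr 1
    ext x
    simp only [Set.mem_image, Set.mem_ofPred_eq, Fin.exists_fin_succ]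
    simp [eq_comm, xx, or_comm, or_left_comm]
  -- the relation on the curve
  have hrel : aeval ![X i, X j, J, L'] Φ = 0 := by
    apply hfrinj
    rw [map_zero, ← hΦ0]
    change frh k _ = _
    rw [map_aeval']
    congr 2
    funext l
    fin_cases l
    · rfl
    · rfl
    · rfl
    · exact hphL.symm
  have hrel' : aeval ![π (X i), π (X j), π J, τ'^[n] (lc s' fun i => π (X i))] Φ = 0 := by
    rw [← hπL, com_iter hvm, ← map_zero π, ← hrel, map_aeval']
    congr 2
    funext l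
    fin_cases l <;> rfl
  obtain ⟨c₁, hc₁, hc₁d⟩ := hEV4 k J i j Φ hij hΦ
  have hne : ∃ c : k, aeval ![π (X i), π (X j), π J, algebraMap k F c] Φ ≠ 0 := by
    refine ⟨c₁, fun h0 => hc₁ (h z hz _ ?_ ?_)⟩
    · refine (hc₁d.trans ?_).trans ((le_max_right _ _).trans (le_max_right _ _))
      exact add_le_add (add_le_add hd0 hd1) (Nat.mul_le_mul_right _ hd2)
    · rw [← hvm.ker, ← h0, map_aeval']
      congr 2
      funext l
      fin_cases l
      · rfl
      · rfl
      · rfl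
      · exact π.commutes c₁
  have hdel := hDEL k F π.range τ' (fun i => π (X i)) (π J) E n a b _ (E - 1) i j s' Φ hcv
    (by
      rintro r ⟨q, rfl⟩
      exact ⟨aeval G q, (hvm.com q).symm⟩) hdeg hE (fun i => ⟨X i, rfl⟩) ⟨J, rfl⟩ hrel' hne
    hd0 hd1 hd2 hmax rfl hpos hdg
  set δ : ℕ := dg k {lc s' fun i => π (X i)} with hδ
  have hδ0 : δ ≤ 2 * (b * (E - 1)) := by
    have h1 : E ^ n * δ ≤ 2 * (b * (E - 1)) := by
      have h2 : 2 * (2 * a * δ) ≤ E ^ n * δ := by
        calc 2 * (2 * a * δ) = 4 * a * δ := by ring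
          _ ≤ E ^ n * δ := Nat.mul_le_mul_right _ ha4
      omega
    calc δ = 1 * δ := (one_mul _).symm
      _ ≤ E ^ n * δ := Nat.mul_le_mul_right _ hEn
      _ ≤ _ := h1
  obtain ⟨S, hS, hπS, hSd⟩ := hq₀ k F π hcv fun s => (hmax s).trans hδ0
  exact hS (h z hz S (hSd.trans ((le_max_left _ _).trans (le_max_left _ _))) ((hvm.ker S).1 hπS))

end Pool.Agent.H55.FFM
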