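import Mathlib

/-!
# Maps of affine 3-space with finite fibres: definitions for the field theory
-/

namespace Pool.Agent.H55.FFM

/-- the degree of `K` over the field generated by `S` (zero if it is infinite) -/
noncomputable def dg (k : Type) {K : Type} [Field k] [Field K] [Algebra k K] (S : Set K) : ℕ :=
  Module.finrank (IntermediateField.adjoin k S) K

/-- the degree of `F` over `τ F` -/
noncomputable def deh {F : Type} [Field F] (τ : F →+* F) : ℕ :=
  @Module.finrank F F _ _ τ.toAlgebra.toModule

/-- the trace of `F` over `τ F`, pulled back by `τ` -/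
noncomputable def trh {F : Type} [Field F] (τ : F →+* F) (a : F) : F :=
  @Algebra.trace F F _ _ τ.toAlgebra a

/-- the norm of `F` over `τ F`, pulled back by `τ` -/
noncomputable def nmh {F : Type} [Field F] (τ : F →+* F) (a : F) : F :=
  @Algebra.norm F F _ _ τ.toAlgebra a

/-- `b` is a basis of `F` over `τ F` -/
def Bas {F : Type} [Field F] (τ : F →+* F) {E : ℕ} (b : Fin E → F) : Prop :=
  ∀ a : F, ∃! c : Fin E → F, a = ∑ i, τ (c i) * b i

/-- the valuation of a Dedekind domain with values in the integers -/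
noncomputable def vP {B F : Type} [CommRing B] [IsDedekindDomain B] [Field F] [Algebra B F]
    [IsFractionRing B F] (P : IsDedekindDomain.HeightOneSpectrum B) (a : F) : ℤ :=
  -WithZero.log (P.valuation F a)

/-- `R` is a finitely generated subring of the function field `F` of a curve, with quotient
field `F` -/
structure Cv (k : Type) {F : Type} [Field k] [Field F] [Algebra k F] (R : Subalgebra k F) :
    Prop where
  fg : R.FG
  top : IntermediateField.adjoin k (R : Set F) = ⊤
  fin : ∃ y : F, FiniteDimensional (IntermediateField.adjoin k {y}) F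
  tra : ∃ y : F, Transcendental k y

/-- discrete valuations of `F`, trivial on `k`, with residue field `k` -/
structure Vs (k : Type) {F : Type} [Field k] [Field F] [Algebra k F] {S : Type}
    (v : S → F → ℤ) : Prop where
  mul : ∀ s a b, a ≠ 0 → b ≠ 0 → v s (a * b) = v s a + v s b
  add : ∀ s a b, a ≠ 0 → b ≠ 0 → a + b ≠ 0 → min (v s a) (v s b) ≤ v s (a + b)
  cst : ∀ s (c : k), c ≠ 0 → v s (algebraMap k F c) = 0
  res : ∀ s a, a ≠ 0 → 0 ≤ v s a →
    ∃ c : k, a = algebraMap k F c ∨ 0 < v s (a - algebraMap k F c)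
  nrm : ∀ s, ∃ a, a ≠ 0 ∧ v s a = 1
  dst : ∀ s s', (∀ a, a ≠ 0 → v s a = v s' a) → s = s'

/-- the places at infinity of the affine curve with coordinate ring `R` -/
structure PD (k : Type) {F : Type} [Field k] [Field F] [Algebra k F] (R : Subalgebra k F)
    {S : Type} [Fintype S] (v : S → F → ℤ) : Prop extends Vs k v where
  neg : ∃ l ∈ R, l ≠ 0 ∧ ∀ s, v s l < 0
  uni : ∀ O : ValuationSubring F, (∀ c : k, algebraMap k F c ∈ O) → (∃ r ∈ R, r ∉ O) →
    ∃ s, ∀ a, a ≠ 0 → (a ∈ O ↔ 0 ≤ v s a)
  len : ∀ r : R, r ≠ 0 → Module.Finite k (R ⧸ Ideal.span {r}) ∧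
    (Module.finrank k (R ⧸ Ideal.span {r}) : ℤ) = -∑ s, v s (r : F)

/-- the primes of `B` which contain `1/l` -/
abbrev Sin (k B : Type) [Field k] [CommRing B] [Algebra (Polynomial k) B] : Type :=
  {P : IsDedekindDomain.HeightOneSpectrum B //
    algebraMap (Polynomial k) B Polynomial.X ∈ P.asIdeal}

end Pool.Agent.H55.FFM
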