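import Pool.Agent.H55.FFM.All
import Pool.Agent.H4.FFM.ZMT
import Pool.Agent.H47.FFM.WPL
import Pool.Agent.H52.FFM.BET
import Pool.Agent.H52.FFM.DEL
import Pool.Agent.H18.BKH.Fin

/-!
# Maps of affine 3-space with finite fibres: conclusion
-/

open MvPolynomial
open Pool.Agent.H12.ZD (pmap v O Res DenseOrbit NoInv)
open Pool.Agent.H18.HIT
open Pool.Agent.H8.TD (lc Wsp K3 xx ph)

namespace Pool.Agent.H55.FFM

theorem All.zmt : T_ZMT := Pool.Agent.H4.FFM.pf_ZMT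
theorem All.wpl : T_WPL := Pool.Agent.H47.FFM.pf_WPL
theorem All.bet : T_BET := Pool.Agent.H52.FFM.pf_BET All.rdt
theorem All.del : T_DEL := Pool.Agent.H52.FFM.pf_DEL All.low All.clz All.pbk All.deh

/-- all the facts -/
theorem al : Al where
  inc := Pool.Agent.H18.HIT.All.inc
  prm := Pool.Agent.H18.HIT.All.prm
  pel := Pool.Agent.H18.HIT.All.pel
  hit := Pool.Agent.H18.HIT.All.hit
  pre := Pool.Agent.H18.HIT.All.pre
  str := Pool.Agent.H18.HIT.All.str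
  avo := Pool.Agent.H18.HIT.All.avo
  igc := Pool.Agent.H18.HIT.All.igc
  lyo := Pool.Agent.H18.HIT.All.lyo
  hyp := Pool.Agent.H18.HIT.All.hyp
  can := Pool.Agent.H18.HIT.All.can
  nit := Pool.Agent.H18.HIT.All.nit
  cve := Pool.Agent.H18.HIT.All.cve
  rtd := Pool.Agent.H18.HIT.All.rtd
  exx := All.exx
  vmx := All.vmx
  rdt := All.rdt
  jtr := All.jtr
  itg := All.itg
  ron := All.ron
  bet := All.bet
  crv := All.crv
  one := All.one
  zmt := All.zmt
  aut := All.aut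
  rnk := All.rnk
  gdp := All.gdp
  wpl := All.wpl
  uni := All.uni
  rel := All.rel
  rem := All.rem
  pbk := All.pbk
  deh := All.deh
  evd := All.evd
  b1p := All.b1p
  b2p := All.b2p
  aln := All.aln
  dic := All.dic
  rl4 := All.rl4
  cij := All.cij
  ev4 := All.ev4
  dmx := All.dmx
  del := All.del
  bsf := All.bsf
  bbd := All.bbd
  dgn := All.dgn
  dgc := All.dgc
  grb := All.grb
  jcc := All.jcc
  ffc := All.ffc

/-- either the intersection numbers grow fast and some orbit is dense, or they grow slowly -/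
theorem slow_or (f : Tup 3 Qb) (b : Po 3 Qb) (θ₀ : Po 3 Qb) (Φ₀ : Polynomial (Po 3 Qb))
    (Δ₀ : Po 3 Qb) (R₀ : Fin 3 → Polynomial (Po 3 Qb))
    (hinj : Function.Injective (aeval f : Po 3 Qb →ₐ[Qb] Po 3 Qb)) (hinv : NoInv f)
    (hprim₀ : Prim f θ₀ Φ₀ Δ₀ R₀) (hb : b ≠ 0) (μ : ℝ) (hμ : (Φ₀.natDegree : ℝ) < μ) :
    (∃ x : Fin 3 → Qb, (∀ n : ℕ, eval ((pmap f)^[n] x) b ≠ 0) ∧ DenseOrbit f x) ∨
      ∃ M₀ : ℕ, ∀ n ≥ M₀, ∀ s s' s'' : Fin 3 → Qb,
        (dg Qb {lc s (xx Qb), lc s' (fun i => fr (it f n i)),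
          lc s'' (fun i => fr (it f n i))} : ℝ) < μ ^ n := by
  by_cases h : ∀ N, ∃ n ≥ N, ∃ s s' s'' : Fin 3 → Qb,
      μ ^ n ≤ (dg Qb {lc s (xx Qb), lc s' (fun i => fr (it f n i)),
        lc s'' (fun i => fr (it f n i))} : ℝ)
  · left
    have he1 : 1 ≤ Φ₀.natDegree := by
      rcases Nat.eq_zero_or_pos Φ₀.natDegree with h0 | h0
      · exfalso
        have h1 : Φ₀ = 1 := by
          have h2 := Polynomial.eq_C_of_natDegree_eq_zero h0
          have h3 := hprim₀.monic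
          rw [h2, Polynomial.Monic, Polynomial.leadingCoeff_C] at h3
          rw [h2, h3, Polynomial.C_1]
        have h2 := hprim₀.root
        rw [h1, ev2, Polynomial.eval₂_one] at h2
        exact one_ne_zero h2
      · exact h0
    obtain ⟨c, hc, hpre⟩ := All.upb 3 Qb f θ₀ Φ₀ Δ₀ R₀ hprim₀
    exact Pool.Agent.H18.BKH.n3affB f b hinj hinv Φ₀.natDegree he1 ⟨c, hc, hpre⟩ μ hμ h hb
  · right
    push Not at h
    exact h

/-- **Zariski dense orbits for maps of affine 3-space with finite fibres.** -/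
theorem finite_fibres (f : Tup 3 Qb) (b : Po 3 Qb)
    (hinj : Function.Injective (aeval f : Po 3 Qb →ₐ[Qb] Po 3 Qb)) (hinv : NoInv f)
    (hfib : ∀ y : Fin 3 → Qb, {x | pmap f x = y}.Finite) (hjac : ∀ c : Qb, jac f ≠ C c)
    (hb : b ≠ 0) :
    ∃ x : Fin 3 → Qb, (∀ n : ℕ, eval ((pmap f)^[n] x) b ≠ 0) ∧ DenseOrbit f x := by
  obtain ⟨θ₀, Φ₀, Δ₀, R₀, hprim₀⟩ := Pool.Agent.H18.HIT.All.pel 3 Qb f hinj
  have he1 : 1 ≤ Φ₀.natDegree := by
    rcases Nat.eq_zero_or_pos Φ₀.natDegree with h0 | h0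
    · exfalso
      have h1 : Φ₀ = 1 := by
        have h2 := Polynomial.eq_C_of_natDegree_eq_zero h0
        have h3 := hprim₀.monic
        rw [h2, Polynomial.Monic, Polynomial.leadingCoeff_C] at h3
        rw [h2, h3, Polynomial.C_1]
      have h2 := hprim₀.root
      rw [h1, ev2, Polynomial.eval₂_one] at h2
      exact one_ne_zero h2
    · exact h0
  have he1' : (1 : ℝ) ≤ (Φ₀.natDegree : ℝ) := by exact_mod_cast he1
  rcases slow_or f b θ₀ Φ₀ Δ₀ R₀ hinj hinv hprim₀ hb (3 / 2 * (Φ₀.natDegree : ℝ))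
    (by linarith) with h | ⟨M₀, hM₀⟩
  · exact h
  · exact thmF al f b θ₀ Φ₀ Δ₀ R₀ hinj hinv hfib hjac hprim₀
      ⟨M₀, fun n hn s s' s'' => (hM₀ n hn s s' s'').le⟩ hb

end Pool.Agent.H55.FFM
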