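import Pool.Agent.H55.FFM.TD

/-!
# Maps of affine 3-space with finite fibres: the good points
-/

open MvPolynomial
open Pool.Agent.H12.ZD (pmap v O Res DenseOrbit NoInv)
open Pool.Agent.H18.HIT
open Pool.Agent.H8.TD (lc Wsp K3 xx ph)

namespace Pool.Agent.H55.FFM

section

variable {N : ℕ} {k : Type} [Field k]

theorem not_mem_van {G : Tup N k} {z : Fin N → k} {q : Po N k} (h : eval z q ≠ 0) :
    q ∉ van G z := fun h' => h (h' 0)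

end

/-- the data of `V(I)` for a good point -/
structure GP {k : Type} [Field k] (G : Tup 3 k) (I : Ideal (Po 3 k)) (E : ℕ) (J : Po 3 k)
    (F : Type) [Field F] [Algebra k F] (π : Po 3 k →ₐ[k] F) (τ' : F →ₐ[k] F) : Prop where
  vm : VM G I π τ'
  cv : Cv k π.range
  deg : deh (τ' : F →+* F) = E
  alt : dg k {π J} ≤ E - 1 ∨
    ((π J)⁻¹ ∈ π.range ∧ ∃ γ : k, τ' (τ' (π J)) = algebraMap k F γ * (π J) ^ (E ^ 2))

theorem good (hVMX : T_VMX) (hRDT : T_RDT) (hJTR : T_JTR) (hITG : T_ITG)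
    (hRON : T_RON) (hBET : T_BET) (hCRV : T_CRV) (hONE : T_ONE)
    {k : Type} [Field k] [IsAlgClosed k] [CharZero k]
    {G : Tup 3 k} {τ : K3 k →ₐ[k] K3 k} {θ : Po 3 k} {Φ : Polynomial (Po 3 k)} {Δ : Po 3 k}
    {R : Fin 3 → Polynomial (Po 3 k)} {I : Ideal (Po 3 k)}
    (hinj : Function.Injective (aeval G : Po 3 k →ₐ[k] Po 3 k)) (hτ : Ext G τ)
    (hprim : Prim G θ Φ Δ R)
    (hZ : ∃ (m : ℕ) (a r : Fin m → Po 3 k), ∑ i, a i * r i = 1 ∧ ∀ i, Zm G (r i))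
    (hE : 2 ≤ Φ.natDegree) (hI : ∀ q, aeval G q ∈ I ↔ q ∈ I) (hpr : I.IsPrime)
    (hSS : ∃ S ∈ I, ∃ S' ∈ I, S ≠ 0 ∧ S' ≠ 0 ∧ IsRelPrime S S')
    (hind : ∃ θ' : Po 3 k, Ind G I Φ.natDegree θ') (hΔ : Δ ∉ I) (hJ : jac G ∉ I)
    (hX : ∀ c : k, X 0 - C c ∉ I) :
    ∃ (F : Type) (_ : Field F) (_ : Algebra k F) (π : Po 3 k →ₐ[k] F) (τ' : F →ₐ[k] F),
      GP G I Φ.natDegree (jac G) F π τ' := by
  obtain ⟨F, _, _, π, τ', hvm⟩ := hVMX 3 k G I hpr hI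
  have hcv : Cv k π.range := hCRV k G I F π τ' hvm hSS hX
  obtain ⟨-, -, hdeg, -⟩ := hRDT 3 k G τ θ Φ Δ R I F π τ' hinj hτ hprim hvm hΔ hind
  have hR : ∀ r ∈ π.range, τ' r ∈ π.range := by
    rintro r ⟨q, rfl⟩
    exact ⟨aeval G q, (hvm.com q).symm⟩
  have hitg := hITG k F π.range τ' hcv hR (by rw [hdeg]; omega)
  obtain ⟨r, hr, hr1⟩ := hRON 3 k G I F π τ' hvm (fun x => hitg _ ⟨x, rfl⟩) hZ
  obtain ⟨β, hβ1, hβ⟩ := hBET 3 k G τ θ Φ Δ R I F π τ' r hinj hτ hprim hvm hΔ hind hr hr1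
  have hπJ : π (jac G) ≠ 0 := fun h => hJ ((hvm.ker _).1 h)
  have htr := hJTR 3 k G τ θ Φ Δ R I F π τ' β hinj hτ hprim hvm hΔ hind hβ hβ1 hJ
  refine ⟨F, inferInstance, inferInstance, π, τ', hvm, hcv, hdeg, ?_⟩
  refine hONE k F π.range τ' Φ.natDegree (π (jac G)) hcv hR hdeg hE ⟨_, rfl⟩ hπJ ?_
  rintro q ⟨q, rfl⟩
  obtain ⟨g, hg⟩ := htr q
  exact ⟨g, hg.symm⟩

end Pool.Agent.H55.FFM
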